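import Mathlib

/-!
# Adapted Bernoulli processes on a finite set of items

Items `i : ι` have a time `t i : ℕ`.  An outcome is a finite set `ω` of items (those that are on).
The probability `q i ω` that item `i` is on depends on `ω` only through items of time `< t i`.
Items of a set `A` may be forced off.
-/

open Finset

namespace Helper50.Frac

variable {ι : Type*} [DecidableEq ι]

/-- A system of one-step weights: `φ i ω` depends on `ω` only through `i` and the items of
smaller time. -/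
structure Sys (t : ι → ℕ) (φ : ι → Finset ι → ℝ) : Prop where
  nonneg : ∀ i ω, 0 ≤ φ i ω
  loc : ∀ i a ω, i ≠ a → t i ≤ t a → φ i (insert a ω) = φ i ω

theorem prod_insert_loc {t : ι → ℕ} {φ : ι → Finset ι → ℝ} (h : Sys t φ) {a : ι} {s : Finset ι}
    (ha : a ∉ s) (hmax : ∀ x ∈ s, t x ≤ t a) (ω : Finset ι) :
    ∏ i ∈ insert a s, φ i (insert a ω) = φ a (insert a ω) * ∏ i ∈ s, φ i ω := by
  rw [Finset.prod_insert ha]
  congr 1
  refine Finset.prod_congr rfl fun i hi => h.loc i a ω ?_ (hmax i hi)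
  rintro rfl; exact ha hi

theorem sum_le_one {t : ι → ℕ} {φ : ι → Finset ι → ℝ} (h : Sys t φ) (s : Finset ι)
    (h1 : ∀ i ∈ s, ∀ ω, i ∉ ω → φ i ω + φ i (insert i ω) ≤ 1) :
    ∑ ω ∈ s.powerset, ∏ i ∈ s, φ i ω ≤ 1 := by
  induction s using Finset.induction_on_max_value t with
  | empty => simp
  | insert a s ha hmax ih =>
    have ih' := ih fun i hi => h1 i (Finset.mem_insert_of_mem hi)
    rw [Finset.sum_powerset_insert ha, ← Finset.sum_add_distrib]
    refine le_trans (Finset.sum_le_sum fun ω hω => ?_) ih'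
    have haω : a ∉ ω := fun h' => ha (Finset.mem_powerset.1 hω h')
    rw [prod_insert_loc h ha hmax, Finset.prod_insert ha, ← add_mul]
    have h2 := h1 a (Finset.mem_insert_self a s) ω haω
    have h3 : 0 ≤ ∏ i ∈ s, φ i ω := Finset.prod_nonneg fun i _ => h.nonneg i ω
    nlinarith

theorem marg {t : ι → ℕ} {φ : ι → Finset ι → ℝ} (h : Sys t φ) (T : ℕ) (f : Finset ι → ℝ)
    (hf : ∀ a ω, T ≤ t a → f (insert a ω) = f ω) (s : Finset ι)
    (h1 : ∀ i ∈ s, T ≤ t i → ∀ ω, i ∉ ω → φ i ω + φ i (insert i ω) = 1) :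
    ∑ ω ∈ s.powerset, f ω * ∏ i ∈ s, φ i ω =
      ∑ ω ∈ (s.filter (fun i => t i < T)).powerset,
        f ω * ∏ i ∈ s.filter (fun i => t i < T), φ i ω := by
  induction s using Finset.induction_on_max_value t with
  | empty => simp
  | insert a s ha hmax ih =>
    have ih' := ih fun i hi => h1 i (Finset.mem_insert_of_mem hi)
    by_cases hT : T ≤ t a
    · rw [Finset.filter_insert, if_neg (not_lt.2 hT), ← ih', Finset.sum_powerset_insert ha,
        ← Finset.sum_add_distrib]
      refine Finset.sum_congr rfl fun ω hω => ?_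
      have haω : a ∉ ω := fun h' => ha (Finset.mem_powerset.1 hω h')
      rw [prod_insert_loc h ha hmax, Finset.prod_insert ha, hf a ω hT]
      have h2 := h1 a (Finset.mem_insert_self a s) hT ω haω
      have : f ω * (φ a ω * ∏ i ∈ s, φ i ω) + f ω * (φ a (insert a ω) * ∏ i ∈ s, φ i ω)
          = f ω * ((φ a ω + φ a (insert a ω)) * ∏ i ∈ s, φ i ω) := by ring
      rw [this, h2, one_mul]
    · have : (insert a s).filter (fun i => t i < T) = insert a s := by
        refine Finset.filter_true_of_mem fun i hi => ?_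
        rcases Finset.mem_insert.1 hi with rfl | hi
        · omega
        · have := hmax i hi
          omega
      rw [this]

/-- Locality of the probabilities. -/
def Loc (t : ι → ℕ) (q : ι → Finset ι → ℝ) : Prop :=
  ∀ i a (ω : Finset ι), t i ≤ t a → q i (insert a ω) = q i ω

/-- one-step weights, items in `A` forced off -/
noncomputable def fac (q : ι → Finset ι → ℝ) (A : Finset ι) (i : ι) (ω : Finset ι) : ℝ :=
  if i ∈ A then (if i ∈ ω then 0 else 1) else (if i ∈ ω then q i ω else 1 - q i ω)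

/-- the weight of the outcome `ω`, items in `A` forced off -/
noncomputable def W (q : ι → Finset ι → ℝ) (U A : Finset ι) (ω : Finset ι) : ℝ :=
  ∏ i ∈ U, fac q A i ω

section

variable {t : ι → ℕ} {q : ι → Finset ι → ℝ} (hq : Loc t q) (h0 : ∀ i ω, 0 ≤ q i ω)
  (h1 : ∀ i ω, q i ω ≤ 1 / 2)

include hq h0 h1

theorem fac_sys (A : Finset ι) : Sys t (fac q A) where
  nonneg i ω := by
    have := h0 i ω
    have := h1 i ω
    unfold fac
    split_ifs <;> linarith
  loc i a ω hia hta := by
    unfold fac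
    have : (i ∈ insert a ω) = (i ∈ ω) := by simp [hia]
    simp only [this, hq i a ω hta]

omit h0 h1 in
theorem fac_sum (A : Finset ι) (i : ι) (ω : Finset ι) (hi : i ∉ ω) :
    fac q A i ω + fac q A i (insert i ω) = 1 := by
  unfold fac
  have := hq i i ω le_rfl
  by_cases hA : i ∈ A
  · simp [hA, hi]
  · simp [hA, hi, this]

theorem W_nonneg (U A : Finset ι) (ω : Finset ι) : 0 ≤ W q U A ω :=
  Finset.prod_nonneg fun i _ => (fac_sys hq h0 h1 A).nonneg i ω

theorem W_sum (U A : Finset ι) : ∑ ω ∈ U.powerset, W q U A ω = 1 := by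
  have := marg (fac_sys hq h0 h1 A) 0 (fun _ => 1) (fun _ _ _ => rfl) U
    (fun i _ _ ω hi => fac_sum hq A i ω hi)
  simpa [W] using this

omit hq h0 h1 in
theorem W_eq_zero {U A : Finset ι} {ω : Finset ι} {i : ι} (hU : i ∈ U) (hA : i ∈ A)
    (hω : i ∈ ω) : W q U A ω = 0 :=
  Finset.prod_eq_zero hU (by simp [fac, hA, hω])

omit hq h0 in
/-- change of measure -/
theorem W_union (U A B : Finset ι) (hB : B ⊆ U) (hAB : Disjoint A B) (ω : Finset ι) :
    W q U A ω * ∏ i ∈ B, (if i ∈ ω then 0 else (1 - q i ω)⁻¹) = W q U (A ∪ B) ω := by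
  have hU : ∀ g : ι → ℝ, ∏ i ∈ U, g i = (∏ i ∈ B, g i) * ∏ i ∈ U \ B, g i := by
    intro g
    rw [mul_comm, Finset.prod_sdiff hB]
  unfold W
  rw [hU, hU (fun i => fac q (A ∪ B) i ω), mul_right_comm, ← Finset.prod_mul_distrib]
  congr 1
  · refine Finset.prod_congr rfl fun i hi => ?_
    have hA : i ∉ A := Finset.disjoint_right.1 hAB hi
    have h2 : (1 - q i ω) ≠ 0 := by have := h1 i ω; linarith
    by_cases hω : i ∈ ω
    · simp [fac, hA, hi, hω]
    · simp [fac, hA, hi, hω, h2]
  · refine Finset.prod_congr rfl fun i hi => ?_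
    have hiB : i ∉ B := (Finset.mem_sdiff.1 hi).2
    simp [fac, hiB]

/-- probability that item `a` is on -/
theorem prob_item (U : Finset ι) (a : ι) (ha : a ∈ U) :
    ∑ ω ∈ U.powerset, (if a ∈ ω then W q U ∅ ω else 0) = ∑ ω ∈ U.powerset, q a ω * W q U ∅ ω := by
  classical
  -- second system: item `a` is always on
  let ψ : ι → Finset ι → ℝ := fun i ω => if i = a then (if a ∈ ω then 1 else 0) else fac q ∅ i ω
  have hψ : Sys t ψ := by
    refine ⟨fun i ω => ?_, fun i b ω hib htb => ?_⟩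
    · by_cases h : i = a
      · simp only [ψ, h, if_true]; split_ifs <;> norm_num
      · simp only [ψ, h, if_false]; exact (fac_sys hq h0 h1 ∅).nonneg i ω
    · by_cases h : i = a
      · subst h
        have : (i ∈ insert b ω) = (i ∈ ω) := by simp [hib]
        simp only [ψ, if_true, this]
      · simp only [ψ, h, if_false]; exact (fac_sys hq h0 h1 ∅).loc i b ω hib htb
  have e1 := marg (fac_sys hq h0 h1 ∅) (t a) (q a) (fun b ω hb => hq a b ω hb) U
    (fun i _ _ ω hi => fac_sum hq ∅ i ω hi)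
  have e2 := marg hψ (t a) (q a) (fun b ω hb => hq a b ω hb) U
    (fun i _ _ ω hi => by
      by_cases h : i = a
      · subst h; simp [ψ, hi]
      · simp only [ψ, h, if_false]; exact fac_sum hq ∅ i ω hi)
  have e3 : ∑ ω ∈ (U.filter (fun i => t i < t a)).powerset,
        q a ω * ∏ i ∈ U.filter (fun i => t i < t a), fac q ∅ i ω =
      ∑ ω ∈ (U.filter (fun i => t i < t a)).powerset,
        q a ω * ∏ i ∈ U.filter (fun i => t i < t a), ψ i ω := by
    refine Finset.sum_congr rfl fun ω _ => ?_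
    congr 1
    refine Finset.prod_congr rfl fun i hi => ?_
    have : i ≠ a := by
      rintro rfl
      exact absurd (Finset.mem_filter.1 hi).2 (lt_irrefl _)
    simp [ψ, this]
  have : ∑ ω ∈ U.powerset, q a ω * W q U ∅ ω = ∑ ω ∈ U.powerset, q a ω * ∏ i ∈ U, ψ i ω := by
    unfold W
    rw [e1, e3, ← e2]
  rw [this]
  refine Finset.sum_congr rfl fun ω _ => ?_
  rw [W, ← Finset.mul_prod_erase U _ ha, ← Finset.mul_prod_erase U (fun i => ψ i ω) ha]
  have h3 : ∏ i ∈ U.erase a, ψ i ω = ∏ i ∈ U.erase a, fac q ∅ i ω := by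
    refine Finset.prod_congr rfl fun i hi => ?_
    simp [ψ, Finset.ne_of_mem_erase hi]
  rw [h3]
  by_cases hω : a ∈ ω
  · simp [ψ, hω, fac]
  · simp [ψ, hω, fac]

/-- exponential moments of the compensated number of items of `D` that are on -/
theorem exp_moment (U A D : Finset ι) (hD : D ⊆ U) (hAD : Disjoint A D) (J : ι → Finset ι → ℝ)
    (hJ : Loc t J) (hJ01 : ∀ i ω, J i ω = 0 ∨ J i ω = 1) (θ : ℝ) :
    ∑ ω ∈ U.powerset, W q U A ω *
      Real.exp (θ * (∑ i ∈ D, if i ∈ ω then J i ω else 0)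
        - (Real.exp θ - 1) * ∑ i ∈ D, J i ω * q i ω) ≤ 1 := by
  classical
  let g : ι → Finset ι → ℝ := fun i ω =>
    Real.exp (θ * (if i ∈ ω then J i ω else 0) - (Real.exp θ - 1) * (J i ω * q i ω))
  let φ : ι → Finset ι → ℝ := fun i ω => fac q A i ω * (if i ∈ D then g i ω else 1)
  have hφ : Sys t φ := by
    refine ⟨fun i ω => ?_, fun i a ω hia hta => ?_⟩
    · refine mul_nonneg ((fac_sys hq h0 h1 A).nonneg i ω) ?_
      split_ifs
      · exact (Real.exp_pos _).le
      · norm_num
    · have e1 : (i ∈ insert a ω) = (i ∈ ω) := by simp [hia]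
      simp only [φ, g, (fac_sys hq h0 h1 A).loc i a ω hia hta, e1, hJ i a ω hta, hq i a ω hta]
  have key : ∀ i ∈ U, ∀ ω, i ∉ ω → φ i ω + φ i (insert i ω) ≤ 1 := by
    intro i _ ω hi
    by_cases hiD : i ∈ D
    · have hiA : i ∉ A := Finset.disjoint_right.1 hAD hiD
      have e1 := hq i i ω le_rfl
      have e2 := hJ i i ω le_rfl
      simp only [φ, g, hiD, if_true, fac, hiA, if_false, hi, Finset.mem_insert_self, e1, e2]
      rcases hJ01 i ω with h | h
      · simp [h]
      · rw [h]
        have hx := Real.add_one_le_exp ((Real.exp θ - 1) * q i ω)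
        have h2 : Real.exp (θ * 0 - (Real.exp θ - 1) * (1 * q i ω)) =
          (Real.exp ((Real.exp θ - 1) * q i ω))⁻¹ := by
            rw [← Real.exp_neg]; congr 1; ring
        have h3 : Real.exp (θ * 1 - (Real.exp θ - 1) * (1 * q i ω)) =
          Real.exp θ * (Real.exp ((Real.exp θ - 1) * q i ω))⁻¹ := by
            rw [← Real.exp_neg, ← Real.exp_add]; congr 1; ring
        rw [h2, h3]
        set E := Real.exp ((Real.exp θ - 1) * q i ω)
        have hE : 0 < E := Real.exp_pos _
        have : (1 - q i ω) * E⁻¹ + q i ω * (Real.exp θ * E⁻¹)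
          = ((Real.exp θ - 1) * q i ω + 1) / E := by field_simp; ring
        rw [this, div_le_one hE]
        exact hx
    · simp only [φ, hiD, if_false, mul_one]
      exact (fac_sum hq A i ω hi).le
  have := sum_le_one hφ U key
  refine le_trans (le_of_eq ?_) this
  refine Finset.sum_congr rfl fun ω _ => ?_
  simp only [φ]
  rw [Finset.prod_mul_distrib, ← W]
  congr 1
  rw [← Finset.prod_filter]
  have : U.filter (fun i => i ∈ D) = D := by
    ext i; simp only [Finset.mem_filter]
    exact ⟨fun h => h.2, fun h => ⟨hD h, h⟩⟩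
  rw [this]
  simp only [g]
  rw [← Real.exp_sum]
  congr 1
  rw [Finset.sum_sub_distrib, Finset.mul_sum, Finset.mul_sum]

/-- two-sided tail bound; `sgn = 1`: upper tail, `sgn = -1`: lower tail -/
theorem tail (U A D : Finset ι) (hD : D ⊆ U) (hAD : Disjoint A D) (J : ι → Finset ι → ℝ)
    (hJ : Loc t J) (hJ01 : ∀ i ω, J i ω = 0 ∨ J i ω = 1) (sgn : ℝ) (hs : sgn = 1 ∨ sgn = -1)
    (x y : ℝ) (hx : 0 ≤ x) (hy : 0 < y) (hxy : x ≤ 2 * y) (E : Finset ι → Prop) [DecidablePred E]
    (hE : ∀ ω ∈ U.powerset, W q U A ω ≠ 0 → E ω →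
      x ≤ sgn * ((∑ i ∈ D, if i ∈ ω then J i ω else 0) - ∑ i ∈ D, J i ω * q i ω) ∧
      ∑ i ∈ D, J i ω * q i ω ≤ y) :
    ∑ ω ∈ U.powerset, (if E ω then W q U A ω else 0) ≤ Real.exp (-(x ^ 2 / (4 * y))) := by
  set τ := x / (2 * y) with hτ
  have hτ0 : 0 ≤ τ := by positivity
  have hτ1 : τ ≤ 1 := by rw [hτ, div_le_one (by positivity)]; exact hxy
  set θ := sgn * τ with hθ
  have hθabs : |θ| ≤ 1 := by
    rcases hs with h | h
    · rw [hθ, h, one_mul, abs_of_nonneg hτ0]; exact hτ1
    · rw [hθ, h]; simp [abs_of_nonneg hτ0, hτ1]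
  have hθ2 : θ ^ 2 = τ ^ 2 := by
    rcases hs with h | h <;> rw [hθ, h] <;> ring
  have hexp : Real.exp θ - 1 - θ ≤ τ ^ 2 := by
    have := (abs_le.1 (Real.abs_exp_sub_one_sub_id_le hθabs)).2
    rw [hθ2] at this; exact this
  have hexp0 : 0 ≤ Real.exp θ - 1 - θ := by
    have := Real.add_one_le_exp θ; linarith
  have hmom := exp_moment hq h0 h1 U A D hD hAD J hJ hJ01 θ
  have hc : 0 < Real.exp (-(x ^ 2 / (4 * y))) := Real.exp_pos _
  have step : ∑ ω ∈ U.powerset, (if E ω then W q U A ω else 0) ≤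
      Real.exp (-(x ^ 2 / (4 * y))) * ∑ ω ∈ U.powerset, W q U A ω *
      Real.exp (θ * (∑ i ∈ D, if i ∈ ω then J i ω else 0)
        - (Real.exp θ - 1) * ∑ i ∈ D, J i ω * q i ω) := by
    rw [Finset.mul_sum]
    refine Finset.sum_le_sum fun ω hω => ?_
    have hW := W_nonneg hq h0 h1 U A ω
    by_cases hEω : E ω
    · rw [if_pos hEω]
      by_cases hz : W q U A ω = 0
      · rw [hz]; simp
      · obtain ⟨ha, hb⟩ := hE ω hω hz hEω
        set N := ∑ i ∈ D, if i ∈ ω then J i ω else 0
        set C := ∑ i ∈ D, J i ω * q i ω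
        have hC0 : 0 ≤ C := Finset.sum_nonneg fun i _ => by
          rcases hJ01 i ω with h | h <;> rw [h] <;> simp [h0]
        have h5 : x ^ 2 / (4 * y) ≤ θ * N - (Real.exp θ - 1) * C := by
          have e1 : θ * N - (Real.exp θ - 1) * C = τ * (sgn * (N - C)) - (Real.exp θ - 1 - θ) * C := by
            rw [hθ]; ring
          have e2 : τ * x ≤ τ * (sgn * (N - C)) := mul_le_mul_of_nonneg_left ha hτ0
          have e3 : (Real.exp θ - 1 - θ) * C ≤ τ ^ 2 * y := by
            calc (Real.exp θ - 1 - θ) * C ≤ τ ^ 2 * C := mul_le_mul_of_nonneg_right hexp hC0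
              _ ≤ τ ^ 2 * y := mul_le_mul_of_nonneg_left hb (by positivity)
          have e4 : τ * x - τ ^ 2 * y = x ^ 2 / (4 * y) := by
            rw [hτ]; field_simp; ring
          rw [e1, ← e4]; linarith
        have h6 : 1 ≤ Real.exp (-(x ^ 2 / (4 * y))) *
            Real.exp (θ * N - (Real.exp θ - 1) * C) := by
          rw [← Real.exp_add]
          exact Real.one_le_exp (by linarith)
        calc W q U A ω = W q U A ω * 1 := (mul_one _).symm
          _ ≤ W q U A ω * (Real.exp (-(x ^ 2 / (4 * y))) *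
            Real.exp (θ * N - (Real.exp θ - 1) * C)) := mul_le_mul_of_nonneg_left h6 hW
          _ = _ := by ring
    · rw [if_neg hEω]
      positivity
  calc _ ≤ _ := step
    _ ≤ Real.exp (-(x ^ 2 / (4 * y))) * 1 := mul_le_mul_of_nonneg_left hmom hc.le
    _ = _ := mul_one _

end

end Helper50.Frac
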