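import Pool.Agent.Helper50.Frac.Hit

/-!
# From ordered graphs to degenerate graphs
-/

open Finset

namespace Helper50.Frac

section

variable {V : Type*} [Fintype V] (G : SimpleGraph V) (d : ℕ)

omit [Fintype V] in
open Classical in
/-- a degeneracy ordering -/
theorem ordering (hdeg : ∀ s : Finset V, s.Nonempty → ∃ v ∈ s, (s.filter fun w => G.Adj v w).card ≤ d)
    (s : Finset V) : ∃ f : V → ℕ, (∀ v ∈ s, f v < s.card) ∧ (∀ v ∈ s, ∀ w ∈ s, f v = f w → v = w) ∧
      ∀ v ∈ s, (s.filter fun w => G.Adj v w ∧ f w < f v).card ≤ d := by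
  induction hs : s.card generalizing s with
  | zero =>
    rw [Finset.card_eq_zero] at hs
    subst hs
    exact ⟨fun _ => 0, by simp, by simp, by simp⟩
  | succ n ih =>
    have hne : s.Nonempty := by rw [← Finset.card_pos]; omega
    obtain ⟨v, hv, hvd⟩ := hdeg s hne
    have hc : (s.erase v).card = n := by rw [Finset.card_erase_of_mem hv]; omega
    obtain ⟨f, hf1, hf2, hf3⟩ := ih (s.erase v) hc
    refine ⟨fun w => if w = v then n else f w, ?_, ?_, ?_⟩
    · intro w hw
      by_cases h : w = v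
      · simp [h]
      · have := hf1 w (Finset.mem_erase.2 ⟨h, hw⟩)
        simp only [h, if_false]
        omega
    · intro a ha b hb hab
      by_cases h1 : a = v
      · by_cases h2 : b = v
        · rw [h1, h2]
        · have := hf1 b (Finset.mem_erase.2 ⟨h2, hb⟩)
          simp only [h1, h2, if_true, if_false] at hab
          omega
      · by_cases h2 : b = v
        · have := hf1 a (Finset.mem_erase.2 ⟨h1, ha⟩)
          simp only [h1, h2, if_true, if_false] at hab
          omega
        · simp only [h1, h2, if_false] at hab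
          exact hf2 a (Finset.mem_erase.2 ⟨h1, ha⟩) b (Finset.mem_erase.2 ⟨h2, hb⟩) hab
    · intro a ha
      by_cases h1 : a = v
      · refine le_trans (Finset.card_le_card ?_) hvd
        intro w hw
        have := Finset.mem_filter.1 hw
        exact Finset.mem_filter.2 ⟨this.1, h1 ▸ this.2.1⟩
      · have ha' := Finset.mem_erase.2 ⟨h1, ha⟩
        refine le_trans (Finset.card_le_card ?_) (hf3 a ha')
        intro w hw
        have hw' := Finset.mem_filter.1 hw
        by_cases h2 : w = v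
        · have h3 := hw'.2.2
          have := hf1 a ha'
          simp only [h1, h2, if_true, if_false] at h3
          omega
        · have h3 := hw'.2.2
          simp only [h1, h2, if_false] at h3
          exact Finset.mem_filter.2 ⟨Finset.mem_erase.2 ⟨h2, hw'.1⟩, hw'.2.1, h3⟩

open Classical in
/-- A law on independent sets that contains every vertex with probability at least `p / 2`,
rewritten as weights. -/
theorem exists_weights
    (hdeg : ∀ s : Finset V, s.Nonempty → ∃ v ∈ s, (s.filter fun w => G.Adj v w).card ≤ d)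
    (h4 : G.CliqueFree 4) {p κ K1 K2 K3 : ℝ} (hC : Con d p κ K1 K2 K3) :
    ∃ x : Finset V → ℝ, (∀ I, 0 ≤ x I) ∧ (∀ I : Finset V, ¬ G.IsIndepSet I → x I = 0) ∧
      (∀ v, 1 ≤ ∑ I with v ∈ I, x I) ∧ ∑ I, x I = 2 / p := by
  obtain ⟨f, hf1, hf2, hf3⟩ := ordering G d hdeg Finset.univ
  set n := (Finset.univ : Finset V).card with hn
  have inj : ∀ v w, f v = f w → v = w := fun v w h => hf2 v (mem_univ _) w (mem_univ _) h
  let S : ℕ → Finset ℕ := fun m => (range m).filter fun k => ∃ v u, f v = m ∧ f u = k ∧ G.Adj v u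
  have hSmem : ∀ v u, f u ∈ S (f v) ↔ f u < f v ∧ G.Adj v u := by
    intro v u
    simp only [S, Finset.mem_filter, Finset.mem_range]
    constructor
    · rintro ⟨h, v', u', h1, h2, h3⟩
      rw [inj _ _ h1, inj _ _ h2] at h3
      exact ⟨h, h3⟩
    · rintro ⟨h, h3⟩
      exact ⟨h, v, u, rfl, rfl, h3⟩
  have hSex : ∀ m, ∀ k ∈ S m, ∃ v u, f v = m ∧ f u = k ∧ G.Adj v u := by
    intro m k hk
    exact (Finset.mem_filter.1 hk).2
  have hS : ∀ v, ∀ u ∈ S v, u < v := by
    intro v u hu
    exact Finset.mem_range.1 (Finset.mem_filter.1 hu).1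
  have hcard : ∀ v, (S (f v)).card ≤ d := by
    intro v
    refine le_trans ?_ (hf3 v (mem_univ _))
    refine Finset.card_le_card_of_surjOn f ?_
    intro k hk
    have hk' : k ∈ S (f v) := hk
    obtain ⟨v', u, h1, rfl, h3⟩ := hSex _ _ hk'
    have := (hSmem v u).1 hk'
    refine ⟨u, ?_, rfl⟩
    simp [this.1, this.2]
  have hK : ∀ v, ∀ u ∈ S v, ∀ c ∈ S u, c ∈ S v → ∀ b ∈ S c, b ∈ S u → b ∉ S v := by
    intro v u hu c hc hcv b hb hbu hbv
    obtain ⟨V', U', rfl, rfl, h1⟩ := hSex _ _ hu
    obtain ⟨_, C', _, rfl, _⟩ := hSex _ _ hc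
    obtain ⟨_, B', _, rfl, _⟩ := hSex _ _ hb
    have e2 := ((hSmem _ _).1 hc).2
    have e3 := ((hSmem _ _).1 hcv).2
    have e4 := ((hSmem _ _).1 hb).2
    have e5 := ((hSmem _ _).1 hbu).2
    have e6 := ((hSmem _ _).1 hbv).2
    have h3 : G.IsNClique 3 {U', C', B'} := SimpleGraph.is3Clique_triple_iff.2 ⟨e2, e5, e4⟩
    refine h4 _ (h3.insert (a := V') ?_)
    intro z hz
    simp only [Finset.mem_insert, Finset.mem_singleton] at hz
    rcases hz with rfl | rfl | rfl
    · exact h1
    · exact e3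
    · exact e6
  have hp := hC.hp
  set U := (Items S n).powerset with hU
  set w : Finset (ℕ × ℕ) → ℝ := fun ω => W (qq S p κ K1 K3) (Items S n) ∅ ω with hw
  have hw0 : ∀ ω, 0 ≤ w ω := fun ω =>
    W_nonneg (qq_loc hS) (Cq_nonneg hS hC) (Cq_half hS hC) _ _ _
  let T : Finset (ℕ × ℕ) → Finset V := fun ω => Finset.univ.filter fun v => (f v, f v) ∈ ω
  have hT : ∀ ω v, v ∈ T ω ↔ (f v, f v) ∈ ω := by intro ω v; simp [T]
  refine ⟨fun I => 2 / p * ∑ ω ∈ U, (if T ω = I then w ω else 0), ?_, ?_, ?_, ?_⟩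
  · intro I
    refine mul_nonneg (by positivity) (Finset.sum_nonneg fun ω _ => ?_)
    split_ifs
    · exact hw0 ω
    · exact le_rfl
  · intro I hI
    rw [mul_eq_zero]
    right
    refine Finset.sum_eq_zero fun ω _ => ?_
    by_cases hTI : T ω = I
    · rw [if_pos hTI]
      subst hTI
      rw [SimpleGraph.IsIndepSet, Set.Pairwise] at hI
      push Not at hI
      obtain ⟨a, ha, b, hb, hab, hadj⟩ := hI
      have ha' := (hT ω a).1 ha
      have hb' := (hT ω b).1 hb
      have hfab : f a ≠ f b := fun h => hab (inj _ _ h)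
      rcases lt_or_gt_of_ne hfab with h | h
      · exact W_indep hS n (f b) (f a) (hf1 b (mem_univ _)) ((hSmem b a).2 ⟨h, hadj.symm⟩) ω hb' ha'
      · exact W_indep hS n (f a) (f b) (hf1 a (mem_univ _)) ((hSmem a b).2 ⟨h, hadj⟩) ω ha' hb'
    · rw [if_neg hTI]
  · intro v
    have e1 : ∑ I with v ∈ I, 2 / p * ∑ ω ∈ U, (if T ω = I then w ω else 0) =
        2 / p * ∑ ω ∈ U, (if (f v, f v) ∈ ω then w ω else 0) := by
      rw [← Finset.mul_sum, Finset.sum_comm]
      congr 1
      refine Finset.sum_congr rfl fun ω _ => ?_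
      rw [Finset.sum_filter]
      have : ∀ I : Finset V, (if v ∈ I then (if T ω = I then w ω else 0) else 0) =
          if T ω = I then (if v ∈ I then w ω else 0) else 0 := by
        intro I; split_ifs <;> rfl
      rw [Finset.sum_congr rfl fun I _ => this I, Finset.sum_ite_eq]
      simp only [Finset.mem_univ, if_true, hT]
    rw [e1]
    have h1 := hit hS hK hC n (f v) (hf1 v (mem_univ _)) (hcard v)
    have h2 : p / 2 ≤ ∑ ω ∈ U, (if (f v, f v) ∈ ω then w ω else 0) := h1
    calc (1 : ℝ) = 2 / p * (p / 2) := by field_simp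
      _ ≤ _ := mul_le_mul_of_nonneg_left h2 (by positivity)
  · rw [← Finset.mul_sum, Finset.sum_comm]
    have : ∀ ω ∈ U, ∑ I : Finset V, (if T ω = I then w ω else 0) = w ω := by
      intro ω _
      rw [Finset.sum_ite_eq]
      simp
    rw [Finset.sum_congr rfl this]
    have h1 := W_sum (qq_loc hS) (Cq_nonneg hS hC) (Cq_half hS hC) (Items S n) ∅
    have h2 : ∑ ω ∈ U, w ω = 1 := h1
    rw [h2, mul_one]

end

end Helper50.Frac
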