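import Pool.Agent.Helper50.Frac.Main

/-!
# Every vertex is hit with probability at least `p / 2`, and the hit set is independent
-/

open Finset

namespace Helper50.Frac

section

variable {S : ℕ → Finset ℕ} {p κ K1 K2 K3 : ℝ} {d : ℕ}
variable (hS : ∀ v, ∀ u ∈ S v, u < v)
  (hK : ∀ v, ∀ u ∈ S v, ∀ c ∈ S u, c ∈ S v → ∀ b ∈ S c, b ∈ S u → b ∉ S v)
  (hC : Con d p κ K1 K2 K3)

include hS hK hC in
open Classical in
theorem hit (n v : ℕ) (hv : v < n) (hd : (S v).card ≤ d) :
    p / 2 ≤ ∑ ω ∈ (Items S n).powerset,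
      (if (v, v) ∈ ω then W (qq S p κ K1 K3) (Items S n) ∅ ω else 0) := by
  have ha : (v, v) ∈ Items S n := by simp [Items, hv]
  rw [prob_item (qq_loc hS) (Cq_nonneg hS hC) (Cq_half hS hC) (Items S n) (v, v) ha]
  have hf := fail_le hS hK hC n v hv.le hd
  have hs := W_sum (qq_loc hS) (Cq_nonneg hS hC) (Cq_half hS hC) (Items S n) (Req S v)
  have key : ∀ ω ∈ (Items S n).powerset,
      qq S p κ K1 K3 (v, v) ω * W (qq S p κ K1 K3) (Items S n) ∅ ω =
      p * W (qq S p κ K1 K3) (Items S n) (Req S v) ω -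
      p * (if ¬ GC S K1 K3 v (fun u => Q S p κ K1 K3 u ω) then
        W (qq S p κ K1 K3) (Items S n) (Req S v) ω else 0) := by
    intro ω _
    have hun := W_union (q := qq S p κ K1 K3) (Cq_half hS hC) (Items S n) ∅ (Req S v)
      (Req_sub hS n v hv.le) (Finset.disjoint_empty_left _) ω
    rw [Finset.empty_union] at hun
    rw [qq_diag, Q_prod hS]
    by_cases hG : GC S K1 K3 v (fun u => Q S p κ K1 K3 u ω)
    · rw [if_pos hG, if_neg (not_not.2 hG), ← hun]
      ring
    · rw [if_neg hG, if_pos hG]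
      ring
  rw [Finset.sum_congr rfl key, Finset.sum_sub_distrib, ← Finset.mul_sum, ← Finset.mul_sum, hs]
  have hp := hC.hp
  nlinarith

include hS in
theorem W_indep (n v u : ℕ) (hv : v < n) (hu : u ∈ S v) (ω : Finset (ℕ × ℕ))
    (h1 : (v, v) ∈ ω) (h2 : (u, u) ∈ ω) :
    W (qq S p κ K1 K3) (Items S n) ∅ ω = 0 := by
  refine Finset.prod_eq_zero (i := (v, v)) (by simp [Items, hv]) ?_
  unfold fac
  rw [if_neg (Finset.notMem_empty _), if_pos h1, qq_diag, Q_prod hS]
  split_ifs
  · have hz : ∏ i ∈ Req S v, (if i ∈ ω then (0 : ℝ) else (1 - qq S p κ K1 K3 i ω)⁻¹) = 0 :=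
      Finset.prod_eq_zero (i := (u, u))
        (Finset.mem_union_left _ (Finset.mem_image.2 ⟨u, hu, rfl⟩)) (if_pos h2)
    rw [hz, mul_zero]
  · rfl

end

/-- the constants for `L = log (log d) / 3000` -/
theorem con_of_large (d : ℕ) (L : ℝ) (hL : 1 ≤ L) (hd : Real.exp (Real.exp (3000 * L)) ≤ d) :
    Con d (L / d) (512 * (32 * L * Real.exp (256 * L)) ^ 3) (8 * L) (128 * L)
      (32 * L * Real.exp (256 * L)) := by
  set K := 32 * L * Real.exp (256 * L) with hK
  have hL0 : 0 < L := by linarith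
  have hd0 : (0 : ℝ) < d := lt_of_lt_of_le (Real.exp_pos _) hd
  have hK0 : 0 < K := by positivity
  have he : 1 ≤ Real.exp (256 * L) := Real.one_le_exp (by positivity)
  have hKL : 32 * L ≤ K := by
    rw [hK]; nlinarith
  have hK1 : 1 ≤ K := by linarith
  have hpd : L / d * d = L := by field_simp
  have hKe : K ≤ Real.exp (288 * L) := by
    have h1 : 32 * L ≤ Real.exp (32 * L) := by
      have := Real.add_one_le_exp (32 * L); linarith
    calc K ≤ Real.exp (32 * L) * Real.exp (256 * L) := by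
          rw [hK]; exact mul_le_mul_of_nonneg_right h1 (Real.exp_pos _).le
      _ = Real.exp (288 * L) := by rw [← Real.exp_add]; congr 1; ring
  have hK5 : 2 * K + 2 * (512 * K ^ 3) * K ^ 2 ≤ Real.exp (1450 * L) := by
    have h2 : K ^ 5 ≤ Real.exp (1440 * L) := by
      calc K ^ 5 ≤ Real.exp (288 * L) ^ 5 := by gcongr
        _ = Real.exp (1440 * L) := by rw [← Real.exp_nat_mul]; congr 1; push_cast; ring
    have h3 : K ≤ K ^ 5 := by
      calc K = K ^ 1 := (pow_one K).symm
        _ ≤ K ^ 5 := pow_le_pow_right₀ hK1 (by norm_num)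
    have h4 : (1026 : ℝ) ≤ Real.exp (10 * L) := by
      have h5 : (2 : ℝ) ≤ Real.exp 1 := by
        have := Real.add_one_le_exp (1 : ℝ); linarith
      have h6 : (2.7 : ℝ) ≤ Real.exp 1 := by
        have := Real.exp_one_gt_d9; linarith
      calc (1026 : ℝ) ≤ 2.7 ^ 10 := by norm_num
        _ ≤ Real.exp 1 ^ 10 := by gcongr
        _ = Real.exp 10 := by rw [← Real.exp_nat_mul]; norm_num
        _ ≤ Real.exp (10 * L) := Real.exp_le_exp.2 (by linarith)
    calc 2 * K + 2 * (512 * K ^ 3) * K ^ 2 = 2 * K + 1024 * K ^ 5 := by ring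
      _ ≤ 1026 * K ^ 5 := by linarith
      _ ≤ Real.exp (10 * L) * Real.exp (1440 * L) := by gcongr
      _ = Real.exp (1450 * L) := by rw [← Real.exp_add]; congr 1; ring
  set lam := Real.exp (1500 * L) with hlam
  have hlam1 : 1500 ≤ lam := by
    have := Real.add_one_le_exp (1500 * L); linarith
  have hd2 : Real.exp (lam ^ 2) ≤ d := by
    have : lam ^ 2 = Real.exp (3000 * L) := by
      rw [hlam, ← Real.exp_nat_mul]; congr 1; push_cast; ring
    rw [this]; exact hd
  have hexpo : Real.exp (1450 * L) ≤ lam := Real.exp_le_exp.2 (by linarith)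
  have hLlam : L ≤ lam := by
    have := Real.add_one_le_exp (1500 * L); linarith
  have hM : L / d * Real.exp (2 * K + 2 * (512 * K ^ 3) * K ^ 2) ≤
      Real.exp (2 * lam - lam ^ 2) := by
    calc L / d * Real.exp (2 * K + 2 * (512 * K ^ 3) * K ^ 2)
        ≤ Real.exp lam / Real.exp (lam ^ 2) * Real.exp lam := by
          gcongr
          · have := Real.add_one_le_exp lam; linarith
          · linarith
      _ = Real.exp (2 * lam - lam ^ 2) := by
          rw [div_eq_mul_inv, ← Real.exp_neg, ← Real.exp_add, ← Real.exp_add]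
          congr 1; ring
  have hM0 : 0 ≤ L / d * Real.exp (2 * K + 2 * (512 * K ^ 3) * K ^ 2) := by positivity
  have hhalf : Real.exp (-1) ≤ 1 / 2 := by
    rw [Real.exp_neg]
    have := Real.add_one_le_exp (1 : ℝ)
    rw [inv_eq_one_div]
    exact one_div_le_one_div_of_le (by norm_num) (by linarith)
  have hKlam : 512 * K ^ 3 ≤ Real.exp lam := by
    have h2 : K ^ 3 ≤ K ^ 5 := pow_le_pow_right₀ hK1 (by norm_num)
    have h3 := Real.add_one_le_exp lam
    have h5 : 0 ≤ K := hK0.le
    have : 2 * (512 * K ^ 3) * K ^ 2 = 1024 * K ^ 5 := by ring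
    have h6 : 0 ≤ K ^ 3 := by positivity
    linarith
  refine
    { hp := by positivity
      hκ := by positivity
      hK1 := by positivity
      hK2 := by positivity
      hK3 := hK1
      hM := ?_
      hκM := ?_
      hL := by rw [hpd]
      h12 := ?_
      h23 := ?_
      hxy := ?_
      h3 := ?_
      h4 := ?_ }
  · refine hM.trans ((Real.exp_le_exp.2 ?_).trans hhalf)
    nlinarith
  · calc 512 * K ^ 3 * (L / d * Real.exp (2 * K + 2 * (512 * K ^ 3) * K ^ 2)) ^ 2
        ≤ Real.exp lam * (Real.exp (2 * lam - lam ^ 2)) ^ 2 := by gcongr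
      _ = Real.exp (5 * lam - 2 * lam ^ 2) := by
          rw [← Real.exp_nat_mul, ← Real.exp_add]; congr 1; push_cast; ring
      _ ≤ 1 / 2 := (Real.exp_le_exp.2 (by nlinarith)).trans hhalf
  · have h8 : Real.exp 2 ≤ 8 := by
      have h1 : Real.exp 2 = Real.exp 1 ^ 2 := by rw [← Real.exp_nat_mul]; norm_num
      have h2 := Real.exp_one_lt_d9
      rw [h1]
      have h3 := Real.exp_pos 1
      nlinarith
    nlinarith
  · rw [hpd, hK]
    have : 2 * (128 * L) = 256 * L := by ring
    rw [this]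
    apply le_of_eq; ring
  · nlinarith
  · have e1 : 512 * K ^ 3 * (128 * L) ^ 2 / (128 * K ^ 2) = 4 * K * (128 * L) ^ 2 := by
      field_simp; ring
    rw [e1]
    have h2 : (4 : ℝ) ≤ 4 * K * (128 * L) ^ 2 := by
      have : 1 ≤ (128 * L) ^ 2 := by nlinarith
      nlinarith
    calc Real.exp (-(4 * K * (128 * L) ^ 2)) ≤ Real.exp (-4) := Real.exp_le_exp.2 (by linarith)
      _ = (Real.exp (-1)) ^ 4 := by rw [← Real.exp_nat_mul]; norm_num
      _ ≤ (1 / 2) ^ 4 := by gcongr
      _ = 1 / 16 := by norm_num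
  · have e1 : 512 * K ^ 3 * (128 * L) ^ 2 / (128 * K ^ 2) = 4 * K * (128 * L) ^ 2 := by
      field_simp; ring
    rw [e1, hpd]
    have h2 : 2 * K ≤ 4 * K * (128 * L) ^ 2 := by
      have : 1 ≤ (128 * L) ^ 2 := by nlinarith
      nlinarith
    have h3 : Real.exp (2 * K) * Real.exp (-(4 * K * (128 * L) ^ 2)) ≤ 1 := by
      rw [← Real.exp_add]
      exact Real.exp_le_one_iff.2 (by linarith)
    calc 2 * Real.exp (2 * K) * L * Real.exp (-(4 * K * (128 * L) ^ 2))
        = 2 * L * (Real.exp (2 * K) * Real.exp (-(4 * K * (128 * L) ^ 2))) := by ring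
      _ ≤ 2 * L * 1 := by gcongr
      _ ≤ K / 16 := by linarith

end Helper50.Frac
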