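import Pool.Agent.Helper50.Frac.Graph

/-!
# Fractional chromatic number of `d`-degenerate `K₄`-free graphs

We prove `g₄(d) ≤ 6000 d / log log d` for all `d ≥ exp (exp 3000)`.
-/

open Finset

namespace Pool.Agent.Results.MP_7ea12b_co.KFourFree

/-- `G` is `d`-degenerate: every nonempty subgraph `H` of `G` has a vertex whose degree in `H` is
at most `d`. -/
def Degenerate {V : Type*} (G : SimpleGraph V) (d : ℕ) : Prop :=
  ∀ H : G.Subgraph, H.verts.Nonempty → ∃ v ∈ H.verts, (H.neighborSet v).ncard ≤ d

open Classical in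
/-- `x` is a feasible point of the linear program that defines the fractional chromatic number:
nonnegative weights on the sets of vertices, supported on the independent sets, such that
the sets containing any given vertex have total weight at least `1`. -/
def Feasible {V : Type*} [Fintype V] (G : SimpleGraph V) (x : Finset V → ℝ) : Prop :=
  (∀ I, 0 ≤ x I) ∧ (∀ I : Finset V, ¬ G.IsIndepSet I → x I = 0) ∧
    ∀ v, 1 ≤ ∑ I with v ∈ I, x I

/-- The fractional chromatic number: the infimum of the total weight over the feasible points. -/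
noncomputable def fracChrom {V : Type*} [Fintype V] (G : SimpleGraph V) : ℝ :=
  sInf {t | ∃ x : Finset V → ℝ, Feasible G x ∧ ∑ I, x I = t}

/-- The fractional chromatic numbers of all finite `d`-degenerate `K_r`-free graphs. -/
def values (r d : ℕ) : Set ℝ :=
  {t | ∃ (n : ℕ) (G : SimpleGraph (Fin n)), Degenerate G d ∧ G.CliqueFree r ∧ fracChrom G = t}

/-- `g_r(d)`: the supremum of the fractional chromatic numbers of the finite `d`-degenerate
`K_r`-free graphs. -/
noncomputable def g (r d : ℕ) : ℝ := sSup (values r d)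

theorem fracChrom_le {V : Type*} [Fintype V] (G : SimpleGraph V) (d : ℕ)
    (hd : Real.exp (Real.exp 3000) ≤ d) (hG : Degenerate G d) (h4 : G.CliqueFree 4) :
    fracChrom G ≤ 6000 * d / Real.log (Real.log d) := by
  classical
  have hd0 : (0 : ℝ) < d := lt_of_lt_of_le (Real.exp_pos _) hd
  have h1 : Real.exp 3000 ≤ Real.log d := (Real.le_log_iff_exp_le hd0).2 hd
  have h10 : 0 < Real.log d := lt_of_lt_of_le (Real.exp_pos _) h1
  have h2 : 3000 ≤ Real.log (Real.log d) := (Real.le_log_iff_exp_le h10).2 h1
  set l := Real.log (Real.log d) with hl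
  have hC := Helper50.Frac.con_of_large d (l / 3000) (by linarith) (by
    have e1 : 3000 * (l / 3000) = l := by ring
    rw [e1, hl, Real.exp_log h10, Real.exp_log hd0])
  have hdeg : ∀ s : Finset V, s.Nonempty → ∃ v ∈ s, (s.filter fun w => G.Adj v w).card ≤ d := by
    intro s hs
    obtain ⟨v, hv, hvd⟩ := hG ((⊤ : G.Subgraph).induce (s : Set V)) hs
    refine ⟨v, by simpa using hv, ?_⟩
    have : ((⊤ : G.Subgraph).induce (s : Set V)).neighborSet v =
        ((s.filter fun w => G.Adj v w : Finset V) : Set V) := by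
      have hv' : v ∈ s := by simpa using hv
      ext w
      simp [SimpleGraph.Subgraph.induce, SimpleGraph.Subgraph.neighborSet, hv']
    rwa [this, Set.ncard_coe_finset] at hvd
  obtain ⟨x, hx0, hx1, hx2, hx3⟩ := Helper50.Frac.exists_weights G d hdeg h4 hC
  have hmem : (2 / (l / 3000 / d) : ℝ) ∈ {t | ∃ x : Finset V → ℝ, Feasible G x ∧ ∑ I, x I = t} := by
    refine ⟨x, ⟨hx0, hx1, fun v => ?_⟩, hx3⟩
    convert hx2 v
  have hbdd : BddBelow {t | ∃ x : Finset V → ℝ, Feasible G x ∧ ∑ I, x I = t} := by
    refine ⟨0, ?_⟩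
    rintro t ⟨y, hy, rfl⟩
    exact Finset.sum_nonneg fun I _ => hy.1 I
  refine (csInf_le hbdd hmem).trans (le_of_eq ?_)
  have hl0 : l ≠ 0 := by linarith
  field_simp
  norm_num

/-- The largest fractional chromatic number of a `d`-degenerate `K₄`-free graph is at most
`6000 d / log log d`. -/
theorem result (d : ℕ) (hd : Real.exp (Real.exp 3000) ≤ d) :
    BddAbove (values 4 d) ∧ g 4 d ≤ 6000 * d / Real.log (Real.log d) := by
  have h : ∀ t ∈ values 4 d, t ≤ 6000 * d / Real.log (Real.log d) := by
    rintro t ⟨n, G, hG, h4, rfl⟩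
    exact fracChrom_le G d hd hG h4
  refine ⟨⟨_, h⟩, csSup_le ?_ h⟩
  refine ⟨fracChrom (⊥ : SimpleGraph (Fin 0)), 0, ⊥, ?_, ?_, rfl⟩
  · rintro H ⟨v, _⟩
    exact v.elim0
  · intro s hs
    have := hs.card_eq
    have h0 : s = ∅ := by ext z; exact z.elim0
    rw [h0] at this
    simp at this

end Pool.Agent.Results.MP_7ea12b_co.KFourFree
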