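import Pool.Agent.Helper50.Frac.Process

/-!
# The main estimate
-/

open Finset

namespace Helper50.Frac

/-- all items of a graph with vertices `0, …, n-1` -/
def Items (S : ℕ → Finset ℕ) (n : ℕ) : Finset (ℕ × ℕ) :=
  (range n ×ˢ range n).filter fun i => i.2 = i.1 ∨ i.2 ∈ S i.1

/-- the constants -/
structure Con (d : ℕ) (p κ K1 K2 K3 : ℝ) : Prop where
  hp : 0 < p
  hκ : 0 < κ
  hK1 : 0 < K1
  hK2 : 0 < K2
  hK3 : 1 ≤ K3
  hM : p * Real.exp (2 * K3 + 2 * κ * K3 ^ 2) ≤ 1 / 2
  hκM : κ * (p * Real.exp (2 * K3 + 2 * κ * K3 ^ 2)) ^ 2 ≤ 1 / 2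
  hL : 8 * (p * d) ≤ K1
  h12 : 2 * Real.exp 2 * K1 ≤ K2
  h23 : 32 * Real.exp (2 * K2) * (p * d) ≤ K3
  hxy : K2 ≤ 16 * K3 ^ 2
  h3 : Real.exp (-(κ * K2 ^ 2 / (128 * K3 ^ 2))) ≤ 1 / 16
  h4 : 2 * Real.exp (2 * K3) * (p * d) * Real.exp (-(κ * K2 ^ 2 / (128 * K3 ^ 2))) ≤ K3 / 16

theorem markov {α : Type*} (s : Finset α) (w f : α → ℝ) (hw : ∀ i ∈ s, 0 ≤ w i)
    (hf : ∀ i ∈ s, 0 ≤ f i) (K : ℝ) (hK : 0 < K) (P : α → Prop) [DecidablePred P]
    (hP : ∀ i ∈ s, P i → K < f i) :
    ∑ i ∈ s, (if P i then w i else 0) ≤ (∑ i ∈ s, w i * f i) / K := by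
  rw [Finset.sum_div]
  refine Finset.sum_le_sum fun i hi => ?_
  have h1 := hw i hi
  split_ifs with h
  · rw [le_div_iff₀ hK]
    exact mul_le_mul_of_nonneg_left (hP i hi h).le h1
  · have := hf i hi
    positivity

theorem stopped_eq (s : Finset ℕ) (f : ℕ → ℝ) (h0 : ∀ c, 0 ≤ f c) (K : ℝ)
    (h : ∑ c ∈ s, f c ≤ K) :
    ∑ c ∈ s, (if ∑ c' ∈ s with c' < c, f c' ≤ K then f c else 0) = ∑ c ∈ s, f c := by
  refine Finset.sum_congr rfl fun c _ => ?_
  rw [if_pos]
  exact (Finset.sum_le_sum_of_subset_of_nonneg (Finset.filter_subset _ _)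
    fun i _ _ => h0 i).trans h

theorem stopped_insert (s : Finset ℕ) (f : ℕ → ℝ) (K : ℝ) (a : ℕ) (ha : ∀ x ∈ s, x < a) :
    ∑ c ∈ insert a s, (if ∑ c' ∈ insert a s with c' < c, f c' ≤ K then f c else 0) =
      (if ∑ c' ∈ s, f c' ≤ K then f a else 0) +
        ∑ c ∈ s, (if ∑ c' ∈ s with c' < c, f c' ≤ K then f c else 0) := by
  have has : a ∉ s := fun h => lt_irrefl _ (ha a h)
  rw [Finset.sum_insert has]
  congr 1
  · have : (insert a s).filter (fun c' => c' < a) = s := by
      ext c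
      simp only [Finset.mem_filter, Finset.mem_insert]
      constructor
      · rintro ⟨rfl | h, h2⟩
        · exact absurd h2 (lt_irrefl _)
        · exact h
      · intro h
        exact ⟨Or.inr h, ha c h⟩
    rw [this]
  · refine Finset.sum_congr rfl fun c hc => ?_
    have : (insert a s).filter (fun c' => c' < c) = s.filter (fun c' => c' < c) := by
      rw [Finset.filter_insert, if_neg (not_lt.2 (ha c hc).le)]
    rw [this]

theorem stopped_le (s : Finset ℕ) (f : ℕ → ℝ) (h0 : ∀ c, 0 ≤ f c) (h1 : ∀ c, f c ≤ 1 / 2) (K : ℝ)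
    (hK : 0 ≤ K) :
    ∑ c ∈ s, (if ∑ c' ∈ s with c' < c, f c' ≤ K then f c else 0) ≤ K + 1 / 2 := by
  induction s using Finset.induction_on_max with
  | empty => simp; linarith
  | insert a s ha ih =>
    rw [stopped_insert s f K a ha]
    by_cases h : ∑ c' ∈ s, f c' ≤ K
    · rw [if_pos h, stopped_eq s f h0 K h]
      have := h1 a
      linarith
    · rw [if_neg h, zero_add]
      exact ih

theorem lt_stopped (s : Finset ℕ) (f : ℕ → ℝ) (h0 : ∀ c, 0 ≤ f c) (K : ℝ)
    (h : K < ∑ c ∈ s, f c) :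
    K < ∑ c ∈ s, (if ∑ c' ∈ s with c' < c, f c' ≤ K then f c else 0) := by
  induction s using Finset.induction_on_max with
  | empty => simpa using h
  | insert a s ha ih =>
    have has : a ∉ s := fun h => lt_irrefl _ (ha a h)
    rw [stopped_insert s f K a ha]
    by_cases h' : ∑ c' ∈ s, f c' ≤ K
    · rw [if_pos h', stopped_eq s f h0 K h']
      rwa [Finset.sum_insert has] at h
    · rw [if_neg h', zero_add]
      exact ih (not_le.1 h')

section

variable {S : ℕ → Finset ℕ} {p κ K1 K2 K3 : ℝ} {d : ℕ}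
variable (hS : ∀ v, ∀ u ∈ S v, u < v)
  (hK : ∀ v, ∀ u ∈ S v, ∀ c ∈ S u, c ∈ S v → ∀ b ∈ S c, b ∈ S u → b ∉ S v)

include hS

theorem Req_sub (n v : ℕ) (hv : v ≤ n) : Req S v ⊆ Items S n := by
  intro i hi
  rcases Finset.mem_union.1 hi with h | h
  · obtain ⟨x, hx, rfl⟩ := Finset.mem_image.1 h
    have := hS v x hx
    simp only [Items, Finset.mem_filter, Finset.mem_product, Finset.mem_range]
    exact ⟨⟨by omega, by omega⟩, Or.inl trivial⟩
  · have he := mem_Edg.1 h
    have h1 := hS v _ he.1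
    have h2 := hS v _ he.2.1
    simp only [Items, Finset.mem_filter, Finset.mem_product, Finset.mem_range]
    exact ⟨⟨by omega, by omega⟩, Or.inr he.2.2⟩

omit hS in
include hK in
theorem Req_inter {u v : ℕ} (hu : u ∈ S v) :
    Req S u ∩ Req S v = (S u ∩ S v).image (fun x => (x, x)) := by
  ext ⟨c, b⟩
  simp only [Req, Finset.mem_inter, Finset.mem_union, Finset.mem_image, mem_Edg, Prod.mk.injEq]
  constructor
  · rintro ⟨h1, h2⟩
    rcases h1 with ⟨x, hx, rfl, rfl⟩ | h1
    · rcases h2 with ⟨y, hy, rfl, _⟩ | h2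
      · exact ⟨y, ⟨hx, hy⟩, rfl, rfl⟩
      · exact ⟨x, ⟨hx, h2.1⟩, rfl, rfl⟩
    · rcases h2 with ⟨y, hy, rfl, rfl⟩ | h2
      · exact ⟨y, ⟨h1.1, hy⟩, rfl, rfl⟩
      · exact absurd h2.2.1 (hK v u hu c h1.1 h2.1 b h1.2.2 h1.2.1)
  · rintro ⟨x, ⟨h1, h2⟩, rfl, rfl⟩
    exact ⟨Or.inl ⟨x, h1, rfl, rfl⟩, Or.inl ⟨x, h2, rfl, rfl⟩⟩

variable (hC : Con d p κ K1 K2 K3)

include hC in
theorem C_nonneg (v : ℕ) (ω : Finset (ℕ × ℕ)) : 0 ≤ Q S p κ K1 K3 v ω :=
  Q_nonneg hS hC.hp.le hC.hκ.le (by linarith [hC.hK3]) hC.hM hC.hκM v ω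

include hC in
theorem C_half (v : ℕ) (ω : Finset (ℕ × ℕ)) : Q S p κ K1 K3 v ω ≤ 1 / 2 :=
  Q_le_half hS hC.hp.le hC.hκ.le (by linarith [hC.hK3]) hC.hM hC.hκM v ω

include hC in
theorem Cq_nonneg (i : ℕ × ℕ) (ω : Finset (ℕ × ℕ)) : 0 ≤ qq S p κ K1 K3 i ω :=
  qq_nonneg hS hC.hp.le hC.hκ.le (by linarith [hC.hK3]) hC.hM hC.hκM i ω

include hC in
theorem Cq_half (i : ℕ × ℕ) (ω : Finset (ℕ × ℕ)) : qq S p κ K1 K3 i ω ≤ 1 / 2 :=
  qq_le_half hS hC.hp.le hC.hκ.le (by linarith [hC.hK3]) hC.hM hC.hκM i ω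

open Classical in
/-- the vertex probability as a product over the required items -/
theorem Q_prod (u : ℕ) (ω : Finset (ℕ × ℕ)) :
    Q S p κ K1 K3 u ω = if GC S K1 K3 u (fun u => Q S p κ K1 K3 u ω) then
      p * ∏ i ∈ Req S u, (if i ∈ ω then 0 else (1 - qq S p κ K1 K3 i ω)⁻¹) else 0 := by
  rw [Q_eq hS, QF, prod_Req hS]
  by_cases h : GC S K1 K3 u (fun u => Q S p κ K1 K3 u ω)
  · rw [if_pos h, if_pos h, mul_assoc]
    congr 2
    · refine Finset.prod_congr rfl fun x _ => ?_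
      rw [qq_diag]
    · refine Finset.prod_congr rfl fun e he => ?_
      have h2 := (mem_Edg.1 he).2.2
      have : qq S p κ K1 K3 e ω = κ * Q S p κ K1 K3 e.2 ω * Q S p κ K1 K3 e.1 ω :=
        qq_edge hS (c := e.1) (b := e.2) h2 ω
      rw [this]
  · rw [if_neg h, if_neg h]

include hK hC in
open Classical in
theorem alpha_W (n u v : ℕ) (hv : v ≤ n) (hu : u ∈ S v) (ω : Finset (ℕ × ℕ)) :
    W (qq S p κ K1 K3) (Items S n) (Req S v) ω *
      (Q S p κ K1 K3 u ω * ∏ x ∈ S u ∩ S v, (1 - Q S p κ K1 K3 x ω)) =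
    if GC S K1 K3 u (fun u => Q S p κ K1 K3 u ω) then
      p * W (qq S p κ K1 K3) (Items S n) (Req S v ∪ Req S u) ω else 0 := by
  have huv := hS v u hu
  have hun := W_union (q := qq S p κ K1 K3) (Cq_half hS hC) (Items S n) (Req S v) (Req S u \ Req S v)
    ((Finset.sdiff_subset).trans (Req_sub hS n u (by omega))) Finset.disjoint_sdiff ω
  rw [Finset.union_sdiff_self_eq_union] at hun
  by_cases hG : GC S K1 K3 u (fun u => Q S p κ K1 K3 u ω)
  · rw [if_pos hG, ← hun]
    by_cases hz : W (qq S p κ K1 K3) (Items S n) (Req S v) ω = 0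
    · rw [hz]; simp
    · have hoff : ∀ i ∈ Req S v, i ∉ ω := fun i hi hω =>
        hz (W_eq_zero (Req_sub hS n v hv hi) hi hω)
      rw [Q_prod hS u ω, if_pos hG, ← Finset.prod_inter_mul_prod_sdiff (Req S u) (Req S v),
        Req_inter hK hu, Finset.prod_image (fun x _ y _ h => by simpa using h)]
      have : (∏ x ∈ S u ∩ S v, if (x, x) ∈ ω then 0 else (1 - qq S p κ K1 K3 (x, x) ω)⁻¹) *
          ∏ x ∈ S u ∩ S v, (1 - Q S p κ K1 K3 x ω) = 1 := by
        rw [← Finset.prod_mul_distrib]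
        refine Finset.prod_eq_one fun x hx => ?_
        have hx' : (x, x) ∈ Req S v := Finset.mem_union_left _
          (Finset.mem_image.2 ⟨x, (Finset.mem_inter.1 hx).2, rfl⟩)
        rw [if_neg (hoff _ hx'), qq_diag]
        have := C_half (K2 := K2) hS hC x ω
        exact inv_mul_cancel₀ (by linarith)
      calc _ = W (qq S p κ K1 K3) (Items S n) (Req S v) ω * p *
          ((∏ x ∈ S u ∩ S v, if (x, x) ∈ ω then 0 else (1 - qq S p κ K1 K3 (x, x) ω)⁻¹) *
          ∏ x ∈ S u ∩ S v, (1 - Q S p κ K1 K3 x ω)) *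
          ∏ x ∈ Req S u \ Req S v, (if x ∈ ω then 0 else (1 - qq S p κ K1 K3 x ω)⁻¹) := by ring
        _ = _ := by rw [this]; ring
  · rw [if_neg hG, Q_prod hS u ω, if_neg hG]
    ring

/-- `α_u` with respect to the root `v` -/
noncomputable def al (S : ℕ → Finset ℕ) (p κ K1 K3 : ℝ) (v u : ℕ) (ω : Finset (ℕ × ℕ)) : ℝ :=
  Q S p κ K1 K3 u ω * ∏ x ∈ S u ∩ S v, (1 - Q S p κ K1 K3 x ω)

open Classical in
/-- stopping indicator -/
noncomputable def Jv (S : ℕ → Finset ℕ) (p κ K1 K3 : ℝ) (v : ℕ) (i : ℕ × ℕ)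
    (ω : Finset (ℕ × ℕ)) : ℝ :=
  if ∑ c ∈ S v with c < i.1, Q S p κ K1 K3 c ω ≤ K3 then 1 else 0

/-- the pool of edges with upper end in `S v` and lower end outside -/
def Pool (S : ℕ → Finset ℕ) (n v : ℕ) : Finset (ℕ × ℕ) :=
  (S v ×ˢ range n).filter fun i => i.2 ∈ S i.1 ∧ i.2 ∉ S v

include hC in
theorem al_nonneg (v u : ℕ) (ω : Finset (ℕ × ℕ)) : 0 ≤ al S p κ K1 K3 v u ω := by
  refine mul_nonneg (C_nonneg hS hC u ω) (Finset.prod_nonneg fun x _ => ?_)
  have := C_half hS hC x ω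
  linarith

include hK hC in
open Classical in
theorem sum_al_le (n u v : ℕ) (hv : v ≤ n) (hu : u ∈ S v) (E : Finset (ℕ × ℕ) → Prop)
    (hE : ∀ ω, E ω → GC S K1 K3 u (fun u => Q S p κ K1 K3 u ω)) :
    ∑ ω ∈ (Items S n).powerset, (if E ω then
      W (qq S p κ K1 K3) (Items S n) (Req S v) ω * al S p κ K1 K3 v u ω else 0) =
    p * ∑ ω ∈ (Items S n).powerset, (if E ω then
      W (qq S p κ K1 K3) (Items S n) (Req S v ∪ Req S u) ω else 0) := by
  rw [Finset.mul_sum]
  refine Finset.sum_congr rfl fun ω _ => ?_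
  by_cases h : E ω
  · rw [if_pos h, if_pos h, al, alpha_W hS hK hC n u v hv hu, if_pos (hE ω h)]
  · rw [if_neg h, if_neg h, mul_zero]

include hK hC in
theorem sum_al_le_p (n u v : ℕ) (hv : v ≤ n) (hu : u ∈ S v) :
    ∑ ω ∈ (Items S n).powerset,
      W (qq S p κ K1 K3) (Items S n) (Req S v) ω * al S p κ K1 K3 v u ω ≤ p := by
  classical
  have h1 : ∀ ω ∈ (Items S n).powerset,
      W (qq S p κ K1 K3) (Items S n) (Req S v) ω * al S p κ K1 K3 v u ω ≤
      p * W (qq S p κ K1 K3) (Items S n) (Req S v ∪ Req S u) ω := by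
    intro ω _
    rw [al, alpha_W hS hK hC n u v hv hu]
    split_ifs
    · exact le_rfl
    · exact mul_nonneg hC.hp.le
        (W_nonneg (qq_loc hS) (Cq_nonneg hS hC) (Cq_half hS hC) _ _ _)
  refine (Finset.sum_le_sum h1).trans ?_
  rw [← Finset.mul_sum, W_sum (qq_loc hS) (Cq_nonneg hS hC) (Cq_half hS hC), mul_one]

theorem Jv_loc (v : ℕ) : Loc Prod.fst (Jv S p κ K1 K3 v) := by
  intro i a ω h
  unfold Jv
  have : ∑ c ∈ S v with c < i.1, Q S p κ K1 K3 c (insert a ω) =
      ∑ c ∈ S v with c < i.1, Q S p κ K1 K3 c ω := by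
    refine Finset.sum_congr rfl fun c hc => ?_
    exact Q_loc hS c a ω ((Finset.mem_filter.1 hc).2.le.trans h)
  rw [this]

omit hS in
theorem Jv_01 (v : ℕ) (i : ℕ × ℕ) (ω : Finset (ℕ × ℕ)) :
    Jv S p κ K1 K3 v i ω = 0 ∨ Jv S p κ K1 K3 v i ω = 1 := by
  unfold Jv
  split_ifs <;> simp

theorem G2_of_pos (c : ℕ) (ω : Finset (ℕ × ℕ)) (h : Q S p κ K1 K3 c ω ≠ 0) :
    GC S K1 K3 c (fun u => Q S p κ K1 K3 u ω) := by
  by_contra hG
  exact h (by rw [Q_prod hS, if_neg hG])

include hC in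
/-- the compensator of the pool is bounded -/
theorem pool_le (n v : ℕ) (ω : Finset (ℕ × ℕ)) :
    ∑ i ∈ Pool S n v, Jv S p κ K1 K3 v i ω * qq S p κ K1 K3 i ω ≤ 2 * κ * K3 ^ 2 := by
  classical
  have hK3 := hC.hK3
  have hκ := hC.hκ
  have hQ := C_nonneg (K2 := K2) hS hC
  unfold Pool
  rw [Finset.sum_filter, Finset.sum_product]
  have inner : ∀ c ∈ S v, ∑ b ∈ range n, (if ((c, b) : ℕ × ℕ).2 ∈ S ((c, b) : ℕ × ℕ).1 ∧
      ((c, b) : ℕ × ℕ).2 ∉ S v then
      Jv S p κ K1 K3 v (c, b) ω * qq S p κ K1 K3 (c, b) ω else 0) ≤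
      κ * K3 * (if ∑ c' ∈ S v with c' < c, Q S p κ K1 K3 c' ω ≤ K3 then Q S p κ K1 K3 c ω
        else 0) := by
    intro c _
    simp only
    by_cases hJ : ∑ c' ∈ S v with c' < c, Q S p κ K1 K3 c' ω ≤ K3
    · rw [if_pos hJ]
      calc ∑ b ∈ range n, (if b ∈ S c ∧ b ∉ S v then
            Jv S p κ K1 K3 v (c, b) ω * qq S p κ K1 K3 (c, b) ω else 0)
          ≤ ∑ b ∈ range n, (if b ∈ S c then κ * Q S p κ K1 K3 b ω * Q S p κ K1 K3 c ω else 0) := by
            refine Finset.sum_le_sum fun b _ => ?_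
            by_cases hb : b ∈ S c
            · rw [if_pos hb]
              have h0 : 0 ≤ κ * Q S p κ K1 K3 b ω * Q S p κ K1 K3 c ω :=
                mul_nonneg (mul_nonneg hκ.le (hQ b ω)) (hQ c ω)
              split_ifs
              · rw [qq_edge hS hb]
                rcases Jv_01 (S := S) (p := p) (κ := κ) (K1 := K1) (K3 := K3) v (c, b) ω with h | h
                · rw [h, zero_mul]; exact h0
                · rw [h, one_mul]
              · exact h0
            · rw [if_neg hb, if_neg (fun h => hb h.1)]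
        _ ≤ ∑ b ∈ S c, κ * Q S p κ K1 K3 b ω * Q S p κ K1 K3 c ω := by
            rw [← Finset.sum_filter]
            refine Finset.sum_le_sum_of_subset_of_nonneg (fun b hb => (Finset.mem_filter.1 hb).2) ?_
            intro b _ _
            exact mul_nonneg (mul_nonneg hκ.le (hQ b ω)) (hQ c ω)
        _ = κ * (∑ b ∈ S c, Q S p κ K1 K3 b ω) * Q S p κ K1 K3 c ω := by
            rw [Finset.mul_sum, Finset.sum_mul]
        _ ≤ κ * K3 * Q S p κ K1 K3 c ω := by
            by_cases hc : Q S p κ K1 K3 c ω = 0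
            · rw [hc]; simp
            · have := (G2_of_pos hS c ω hc).2
              have h1 := hQ c ω
              gcongr
    · rw [if_neg hJ, mul_zero]
      refine Finset.sum_nonpos fun b _ => ?_
      have : Jv S p κ K1 K3 v (c, b) ω = 0 := by
        unfold Jv; rw [if_neg hJ]
      split_ifs
      · rw [this, zero_mul]
      · exact le_rfl
  refine (Finset.sum_le_sum inner).trans ?_
  rw [← Finset.mul_sum]
  have h5 := stopped_le (S v) (fun c => Q S p κ K1 K3 c ω) (fun c => hQ c ω)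
    (fun c => C_half hS hC c ω) K3 (by linarith)
  have h6 : 0 ≤ κ * K3 := by positivity
  calc _ ≤ κ * K3 * (K3 + 1 / 2) := mul_le_mul_of_nonneg_left h5 h6
    _ ≤ κ * K3 * (2 * K3) := mul_le_mul_of_nonneg_left (by linarith) h6
    _ = 2 * κ * K3 ^ 2 := by ring

/-- `u` is bad for the root `v` -/
def Bad (S : ℕ → Finset ℕ) (p κ K1 K2 K3 : ℝ) (v u : ℕ) (ω : Finset (ℕ × ℕ)) : Prop :=
  GC S K1 K3 u (fun u => Q S p κ K1 K3 u ω) ∧
  ∑ c ∈ S v with c < u, Q S p κ K1 K3 c ω ≤ K3 ∧
  K2 < ∑ c ∈ S u ∩ S v, Q S p κ K1 K3 c ω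

include hC in
open Classical in
theorem JQ_le (v u : ℕ) (ω : Finset (ℕ × ℕ)) :
    (if ∑ c ∈ S v with c < u, Q S p κ K1 K3 c ω ≤ K3 then Q S p κ K1 K3 u ω else 0) ≤
    Real.exp (2 * K2) * al S p κ K1 K3 v u ω +
      Real.exp (2 * K3) * (if Bad S p κ K1 K2 K3 v u ω then al S p κ K1 K3 v u ω else 0) := by
  have ha := al_nonneg hS hC v u ω
  have hb : 0 ≤ Real.exp (2 * K3) *
      (if Bad S p κ K1 K2 K3 v u ω then al S p κ K1 K3 v u ω else 0) := by
    refine mul_nonneg (Real.exp_pos _).le ?_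
    split_ifs
    · exact ha
    · exact le_rfl
  have ha' : 0 ≤ Real.exp (2 * K2) * al S p κ K1 K3 v u ω :=
    mul_nonneg (Real.exp_pos _).le ha
  have key : ∀ K : ℝ, ∑ c ∈ S u ∩ S v, Q S p κ K1 K3 c ω ≤ K →
      Q S p κ K1 K3 u ω ≤ Real.exp (2 * K) * al S p κ K1 K3 v u ω := by
    intro K hK'
    have h1 : Real.exp (-(2 * K)) ≤ ∏ x ∈ S u ∩ S v, (1 - Q S p κ K1 K3 x ω) := by
      calc Real.exp (-(2 * K)) ≤ Real.exp (∑ c ∈ S u ∩ S v, -(2 * Q S p κ K1 K3 c ω)) := by
            apply Real.exp_le_exp.2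
            rw [Finset.sum_neg_distrib, ← Finset.mul_sum]
            linarith
        _ = ∏ x ∈ S u ∩ S v, Real.exp (-(2 * Q S p κ K1 K3 x ω)) := Real.exp_sum _ _
        _ ≤ _ := Finset.prod_le_prod (fun _ _ => (Real.exp_pos _).le) fun x _ =>
            exp_le_one_sub (C_nonneg hS hC x ω) (C_half hS hC x ω)
    have h2 : Real.exp (2 * K) * Real.exp (-(2 * K)) = 1 := by
      rw [← Real.exp_add]; simp
    calc Q S p κ K1 K3 u ω = Real.exp (2 * K) * (Q S p κ K1 K3 u ω * Real.exp (-(2 * K))) := by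
          rw [mul_left_comm, h2, mul_one]
      _ ≤ _ := by
          unfold al
          have := C_nonneg hS hC u ω
          gcongr
  split_ifs with hJ hB hB
  · have h2 : ∑ c ∈ S u ∩ S v, Q S p κ K1 K3 c ω ≤ K3 :=
      (Finset.sum_le_sum_of_subset_of_nonneg Finset.inter_subset_left
        fun c _ _ => C_nonneg hS hC c ω).trans hB.1.2
    have := key K3 h2
    linarith
  · rw [mul_zero, add_zero]
    by_cases hG : GC S K1 K3 u (fun u => Q S p κ K1 K3 u ω)
    · have h2 : ∑ c ∈ S u ∩ S v, Q S p κ K1 K3 c ω ≤ K2 := by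
        by_contra h
        exact hB ⟨hG, hJ, not_le.1 h⟩
      exact key K2 h2
    · have : Q S p κ K1 K3 u ω = 0 := by rw [Q_prod hS, if_neg hG]
      rw [this]; exact ha'
  · have := mul_nonneg (Real.exp_pos (2 * K3)).le ha
    linarith
  · rw [mul_zero, add_zero]; exact ha'

include hK hC in
/-- a bad vertex has a large compensator inside the pool -/
theorem bad_pool (n v u : ℕ) (hv : v ≤ n) (hu : u ∈ S v) (ω : Finset (ℕ × ℕ))
    (hB : Bad S p κ K1 K2 K3 v u ω) :
    κ * K2 / 2 ≤ ∑ i ∈ Pool S n v ∩ Req S u, Jv S p κ K1 K3 v i ω * qq S p κ K1 K3 i ω := by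
  classical
  obtain ⟨hG, hJ, hB2⟩ := hB
  have hQ := C_nonneg (K2 := K2) hS hC
  have hH := C_half (K2 := K2) hS hC
  have hκ := hC.hκ
  set Qω : ℕ → ℝ := fun x => Q S p κ K1 K3 x ω with hQω
  set C := S u ∩ S v with hCdef
  -- the vertices of C with loaded neighbourhood inside `S u`
  set D := C.filter (fun c => ∏ b ∈ S c ∩ S u, (1 - Qω b) < Real.exp (-2)) with hD
  have h1 : ∑ c ∈ C \ D, Qω c ≤ Real.exp 2 * K1 := by
    have h2 : ∑ c ∈ C \ D, Qω c * Real.exp (-2) ≤ K1 := by
      calc ∑ c ∈ C \ D, Qω c * Real.exp (-2)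
          ≤ ∑ c ∈ C \ D, Qω c * ∏ b ∈ S c ∩ S u, (1 - Qω b) := by
            refine Finset.sum_le_sum fun c hc => ?_
            have hc' := Finset.mem_sdiff.1 hc
            have : Real.exp (-2) ≤ ∏ b ∈ S c ∩ S u, (1 - Qω b) := by
              by_contra h
              exact hc'.2 (Finset.mem_filter.2 ⟨hc'.1, not_le.1 h⟩)
            exact mul_le_mul_of_nonneg_left this (hQ c ω)
        _ ≤ ∑ c ∈ S u, Qω c * ∏ b ∈ S c ∩ S u, (1 - Qω b) := by
            refine Finset.sum_le_sum_of_subset_of_nonneg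
              (Finset.sdiff_subset.trans Finset.inter_subset_left) fun c _ _ => ?_
            refine mul_nonneg (hQ c ω) (Finset.prod_nonneg fun b _ => ?_)
            have := hH b ω
            simp only [hQω]; linarith
        _ ≤ K1 := hG.1
    rw [← Finset.sum_mul] at h2
    have h3 : Real.exp 2 * Real.exp (-2) = 1 := by rw [← Real.exp_add]; simp
    calc ∑ c ∈ C \ D, Qω c = Real.exp 2 * ((∑ c ∈ C \ D, Qω c) * Real.exp (-2)) := by
          rw [mul_left_comm, h3, mul_one]
      _ ≤ _ := mul_le_mul_of_nonneg_left h2 (Real.exp_pos _).le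
  have h4 : K2 / 2 ≤ ∑ c ∈ D, Qω c := by
    have h5 : ∑ c ∈ C \ D, Qω c + ∑ c ∈ D, Qω c = ∑ c ∈ C, Qω c :=
      Finset.sum_sdiff (Finset.filter_subset _ _)
    have h6 := hC.h12
    have h7 : K2 < ∑ c ∈ C, Qω c := hB2
    nlinarith
  have h8 : ∀ c ∈ D, 1 ≤ ∑ b ∈ S c ∩ S u, Qω b := by
    intro c hc
    have hc' := (Finset.mem_filter.1 hc).2
    have h9 : Real.exp (-(2 * ∑ b ∈ S c ∩ S u, Qω b)) ≤ ∏ b ∈ S c ∩ S u, (1 - Qω b) := by
      rw [Finset.mul_sum, ← Finset.sum_neg_distrib, Real.exp_sum]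
      exact Finset.prod_le_prod (fun _ _ => (Real.exp_pos _).le) fun x _ =>
        exp_le_one_sub (hQ x ω) (hH x ω)
    have h10 := h9.trans_lt hc'
    have := Real.exp_lt_exp.1 h10
    linarith
  have hDC : ∀ c ∈ D, c ∈ S u ∧ c ∈ S v := fun c hc =>
    Finset.mem_inter.1 (Finset.mem_filter.1 hc).1
  clear_value D
  -- sum over the edges (c, b)
  set E := (D ×ˢ S u).filter (fun e => e.2 ∈ S e.1) with hE
  have hsub : E ⊆ Pool S n v ∩ Req S u := by
    intro e he
    have he1 := Finset.mem_filter.1 he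
    have he2 := Finset.mem_product.1 he1.1
    have he3 := hDC _ he2.1
    have hnv : e.2 ∉ S v := hK v u hu e.1 he3.1 he3.2 e.2 he1.2 he2.2
    refine Finset.mem_inter.2 ⟨?_, ?_⟩
    · refine Finset.mem_filter.2 ⟨Finset.mem_product.2 ⟨he3.2, ?_⟩, he1.2, hnv⟩
      have a1 := hS v u hu
      have a2 := hS u e.2 he2.2
      exact Finset.mem_range.2 (by omega)
    · exact Finset.mem_union_right _ (mem_Edg.2 ⟨he3.1, he2.2, he1.2⟩)
  calc κ * K2 / 2 ≤ κ * ∑ c ∈ D, Qω c := by nlinarith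
    _ ≤ κ * ∑ c ∈ D, Qω c * ∑ b ∈ S c ∩ S u, Qω b := by
        refine mul_le_mul_of_nonneg_left (Finset.sum_le_sum fun c hc => ?_) hκ.le
        have := mul_le_mul_of_nonneg_left (h8 c hc) (hQ c ω)
        simpa using this
    _ = ∑ e ∈ E, Jv S p κ K1 K3 v e ω * qq S p κ K1 K3 e ω := by
        rw [hE, Finset.sum_filter, Finset.sum_product, Finset.mul_sum]
        refine Finset.sum_congr rfl fun c hc => ?_
        have hcC := hDC c hc
        rw [Finset.mul_sum, Finset.mul_sum]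
        have hJ1 : ∀ b, Jv S p κ K1 K3 v (c, b) ω = 1 := by
          intro b
          unfold Jv
          rw [if_pos]
          refine (Finset.sum_le_sum_of_subset_of_nonneg ?_ fun x _ _ => hQ x ω).trans hJ
          intro x hx
          have hx' := Finset.mem_filter.1 hx
          refine Finset.mem_filter.2 ⟨hx'.1, ?_⟩
          have := hS u c hcC.1
          have := hx'.2
          simp only at this
          omega
        rw [Finset.inter_comm, ← Finset.filter_mem_eq_inter, Finset.sum_filter]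
        refine Finset.sum_congr rfl fun b _ => ?_
        simp only
        by_cases hb : b ∈ S c
        · rw [if_pos hb, if_pos hb, hJ1, qq_edge hS hb]
          simp only [hQω]; ring
        · rw [if_neg hb, if_neg hb]
    _ ≤ _ := by
        refine Finset.sum_le_sum_of_subset_of_nonneg hsub fun e _ _ => ?_
        refine mul_nonneg ?_ (Cq_nonneg hS hC e ω)
        rcases Jv_01 (S := S) (p := p) (κ := κ) (K1 := K1) (K3 := K3) v e ω with h | h <;> simp [h]

include hK hC in
open Classical in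
/-- failure probability of the truncation conditions under `do(v)` -/
theorem fail_le (n v : ℕ) (hv : v ≤ n) (hd : (S v).card ≤ d) :
    ∑ ω ∈ (Items S n).powerset, (if ¬ GC S K1 K3 v (fun u => Q S p κ K1 K3 u ω) then
      W (qq S p κ K1 K3) (Items S n) (Req S v) ω else 0) ≤ 1 / 2 := by
  have hQ := C_nonneg (K2 := K2) hS hC
  have hH := C_half (K2 := K2) hS hC
  have hκ := hC.hκ
  have hp := hC.hp
  have hK1 := hC.hK1
  have hK2 := hC.hK2
  have hK3 := hC.hK3
  have hL0 : 0 ≤ p * d := by positivity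
  set w : Finset (ℕ × ℕ) → ℝ := fun ω => W (qq S p κ K1 K3) (Items S n) (Req S v) ω with hw
  have hw0 : ∀ ω, 0 ≤ w ω := fun ω =>
    W_nonneg (qq_loc hS) (Cq_nonneg hS hC) (Cq_half hS hC) _ _ _
  set N : Finset (ℕ × ℕ) → ℝ := fun ω => ∑ i ∈ Pool S n v, if i ∈ ω then
    Jv S p κ K1 K3 v i ω else 0 with hN
  set A : Finset (ℕ × ℕ) → ℝ := fun ω => ∑ i ∈ Pool S n v,
    Jv S p κ K1 K3 v i ω * qq S p κ K1 K3 i ω with hA
  set ε := Real.exp (-(κ * K2 ^ 2 / (128 * K3 ^ 2))) with hε
  set x := κ * K2 / 4 with hx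
  set y := 2 * κ * K3 ^ 2 with hy
  have hx0 : 0 ≤ x := by positivity
  have hy0 : 0 < y := by positivity
  have hxy : x ≤ 2 * y := by
    have := hC.hxy
    rw [hx, hy]; nlinarith
  have hexp : Real.exp (-(x ^ 2 / (4 * y))) = ε := by
    rw [hε, hx, hy]; congr 2; field_simp; ring
  have hPool : Pool S n v ⊆ Items S n := by
    intro i hi
    have h1 := Finset.mem_filter.1 hi
    have h2 := Finset.mem_product.1 h1.1
    have h3 := hS v _ h2.1
    exact Finset.mem_filter.2 ⟨Finset.mem_product.2 ⟨Finset.mem_range.2 (by omega), h2.2⟩,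
      Or.inr h1.2.1⟩
  -- the sum of the α's
  have hal : ∑ ω ∈ (Items S n).powerset, w ω * ∑ u ∈ S v, al S p κ K1 K3 v u ω ≤ p * d := by
    calc ∑ ω ∈ (Items S n).powerset, w ω * ∑ u ∈ S v, al S p κ K1 K3 v u ω
        = ∑ u ∈ S v, ∑ ω ∈ (Items S n).powerset, w ω * al S p κ K1 K3 v u ω := by
          rw [Finset.sum_comm]
          exact Finset.sum_congr rfl fun ω _ => Finset.mul_sum _ _ _
      _ ≤ ∑ _u ∈ S v, p := Finset.sum_le_sum fun u hu => sum_al_le_p hS hK hC n u v hv hu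
      _ = p * (S v).card := by rw [Finset.sum_const, nsmul_eq_mul, mul_comm]
      _ ≤ p * d := by
          have : ((S v).card : ℝ) ≤ d := by exact_mod_cast hd
          exact mul_le_mul_of_nonneg_left this hp.le
  have hal0 : ∀ ω, 0 ≤ ∑ u ∈ S v, al S p κ K1 K3 v u ω := fun ω =>
    Finset.sum_nonneg fun u _ => al_nonneg hS hC v u ω
  -- event 1
  have P1 : ∑ ω ∈ (Items S n).powerset, (if K1 < ∑ u ∈ S v, al S p κ K1 K3 v u ω then w ω else 0)
      ≤ 1 / 8 := by
    have := markov (Items S n).powerset w (fun ω => ∑ u ∈ S v, al S p κ K1 K3 v u ω)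
      (fun ω _ => hw0 ω) (fun ω _ => hal0 ω) K1 hK1
      (fun ω => K1 < ∑ u ∈ S v, al S p κ K1 K3 v u ω) (fun _ _ h => h)
    refine this.trans ?_
    rw [div_le_iff₀ hK1]
    have := hC.hL
    linarith
  -- event 2
  have P2 : ∑ ω ∈ (Items S n).powerset, (if K3 / 2 < Real.exp (2 * K2) *
      ∑ u ∈ S v, al S p κ K1 K3 v u ω then w ω else 0) ≤ 1 / 16 := by
    have h2 : 0 < K3 / (2 * Real.exp (2 * K2)) := by positivity
    have := markov (Items S n).powerset w (fun ω => ∑ u ∈ S v, al S p κ K1 K3 v u ω)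
      (fun ω _ => hw0 ω) (fun ω _ => hal0 ω) (K3 / (2 * Real.exp (2 * K2))) h2
      (fun ω => K3 / 2 < Real.exp (2 * K2) * ∑ u ∈ S v, al S p κ K1 K3 v u ω) (fun ω _ h => by
        rw [div_lt_iff₀ (by positivity)]
        linarith)
    refine this.trans ?_
    rw [div_le_iff₀ h2]
    have h3 := hC.h23
    have h4 : (1 / 16 : ℝ) * (K3 / (2 * Real.exp (2 * K2))) = K3 / (32 * Real.exp (2 * K2)) := by
      field_simp; ring
    rw [h4]
    refine hal.trans ?_
    rw [le_div_iff₀ (by positivity)]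
    linarith
  -- event 3
  have P3 : ∑ ω ∈ (Items S n).powerset, (if N ω < A ω - x then w ω else 0) ≤ 1 / 16 := by
    have hdis : Disjoint (Req S v) (Pool S n v) := by
      rw [Finset.disjoint_left]
      intro i hi hi'
      have h1 := (Finset.mem_filter.1 hi').2
      rcases Finset.mem_union.1 hi with h | h
      · obtain ⟨z, hz, rfl⟩ := Finset.mem_image.1 h
        exact h1.2 hz
      · exact h1.2 (mem_Edg.1 h).2.1
    have := tail (qq_loc hS) (Cq_nonneg hS hC) (Cq_half hS hC) (Items S n) (Req S v)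
      (Pool S n v) hPool hdis (Jv S p κ K1 K3 v) (Jv_loc hS v) (Jv_01 v) (-1) (Or.inr rfl) x y
      hx0 hy0 hxy (fun ω => N ω < A ω - x) (fun ω _ _ h => by
        refine ⟨?_, pool_le hS hC n v ω⟩
        have : N ω < A ω - x := h
        simp only [hN, hA] at this
        linarith)
    rw [hexp] at this
    exact this.trans hC.h3
  -- event 4
  have P4 : ∑ ω ∈ (Items S n).powerset, (if A ω - x ≤ N ω ∧ K3 / 2 < Real.exp (2 * K3) *
      ∑ u ∈ S v, (if Bad S p κ K1 K2 K3 v u ω then al S p κ K1 K3 v u ω else 0) then w ω else 0)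
      ≤ 1 / 16 := by
    have h2 : 0 < K3 / (2 * Real.exp (2 * K3)) := by positivity
    set F : Finset (ℕ × ℕ) → ℝ := fun ω => ∑ u ∈ S v,
      (if Bad S p κ K1 K2 K3 v u ω ∧ A ω - x ≤ N ω then al S p κ K1 K3 v u ω else 0) with hF
    have hF0 : ∀ ω, 0 ≤ F ω := fun ω => Finset.sum_nonneg fun u _ => by
      split_ifs
      · exact al_nonneg hS hC v u ω
      · exact le_rfl
    have := markov (Items S n).powerset w F
      (fun ω _ => hw0 ω) (fun ω _ => hF0 ω) (K3 / (2 * Real.exp (2 * K3))) h2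
      (fun ω => A ω - x ≤ N ω ∧ K3 / 2 < Real.exp (2 * K3) *
      ∑ u ∈ S v, (if Bad S p κ K1 K2 K3 v u ω then al S p κ K1 K3 v u ω else 0)) (fun ω _ h => by
        have e : F ω = ∑ u ∈ S v,
            (if Bad S p κ K1 K2 K3 v u ω then al S p κ K1 K3 v u ω else 0) := by
          refine Finset.sum_congr rfl fun u _ => ?_
          by_cases hb : Bad S p κ K1 K2 K3 v u ω
          · rw [if_pos hb, if_pos ⟨hb, h.1⟩]
          · rw [if_neg hb, if_neg (fun h => hb h.1)]
        rw [e, div_lt_iff₀ (by positivity)]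
        linarith [h.2])
    refine this.trans ?_
    have hmain : ∑ ω ∈ (Items S n).powerset, w ω * F ω ≤ p * d * ε := by
      calc ∑ ω ∈ (Items S n).powerset, w ω * F ω
          = ∑ u ∈ S v, ∑ ω ∈ (Items S n).powerset,
            (if Bad S p κ K1 K2 K3 v u ω ∧ A ω - x ≤ N ω then
              w ω * al S p κ K1 K3 v u ω else 0) := by
            rw [Finset.sum_comm]
            refine Finset.sum_congr rfl fun ω _ => ?_
            rw [hF, Finset.mul_sum]
            refine Finset.sum_congr rfl fun u _ => ?_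
            split_ifs <;> simp
        _ ≤ ∑ _u ∈ S v, p * ε := by
            refine Finset.sum_le_sum fun u hu => ?_
            have e0 := sum_al_le hS hK hC n u v hv hu
              (fun ω => Bad S p κ K1 K2 K3 v u ω ∧ A ω - x ≤ N ω) (fun ω h => h.1.1)
            refine (le_of_eq ((Finset.sum_congr rfl fun ω _ => ?_).trans e0)).trans ?_
            · congr
            refine mul_le_mul_of_nonneg_left ?_ hp.le
            have hdis : Disjoint (Req S v ∪ Req S u) (Pool S n v \ Req S u) := by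
              rw [Finset.disjoint_left]
              intro i hi hi'
              have h0 := Finset.mem_sdiff.1 hi'
              have h1 := (Finset.mem_filter.1 h0.1).2
              rcases Finset.mem_union.1 hi with hi | hi
              · rcases Finset.mem_union.1 hi with h | h
                · obtain ⟨z, hz, rfl⟩ := Finset.mem_image.1 h
                  exact h1.2 hz
                · exact h1.2 (mem_Edg.1 h).2.1
              · exact h0.2 hi
            have hsub : Req S v ∪ Req S u ⊆ Items S n :=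
              Finset.union_subset (Req_sub hS n v hv)
                (Req_sub hS n u ((hS v u hu).le.trans hv))
            have := tail (qq_loc hS) (Cq_nonneg hS hC) (Cq_half hS hC) (Items S n)
              (Req S v ∪ Req S u) (Pool S n v \ Req S u) (Finset.sdiff_subset.trans hPool) hdis
              (Jv S p κ K1 K3 v) (Jv_loc hS v) (Jv_01 v) 1 (Or.inl rfl) x y hx0 hy0 hxy
              (fun ω => Bad S p κ K1 K2 K3 v u ω ∧ A ω - x ≤ N ω) (fun ω _ hz h => by
                have hoff : ∀ i ∈ Req S v ∪ Req S u, i ∉ ω := fun i hi hω =>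
                  hz (W_eq_zero (hsub hi) hi hω)
                have hbad := bad_pool hS hK hC n v u hv hu ω h.1
                have hA' : A ω = (∑ i ∈ Pool S n v ∩ Req S u,
                    Jv S p κ K1 K3 v i ω * qq S p κ K1 K3 i ω) +
                    ∑ i ∈ Pool S n v \ Req S u,
                    Jv S p κ K1 K3 v i ω * qq S p κ K1 K3 i ω := by
                  rw [hA]; exact (Finset.sum_inter_add_sum_sdiff _ _ _).symm
                have hN' : N ω = (∑ i ∈ Pool S n v ∩ Req S u,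
                    (if i ∈ ω then Jv S p κ K1 K3 v i ω else 0)) +
                    ∑ i ∈ Pool S n v \ Req S u,
                    (if i ∈ ω then Jv S p κ K1 K3 v i ω else 0) := by
                  rw [hN]; exact (Finset.sum_inter_add_sum_sdiff _ _ _).symm
                have hz' : (∑ i ∈ Pool S n v ∩ Req S u,
                    (if i ∈ ω then Jv S p κ K1 K3 v i ω else 0)) = 0 := by
                  refine Finset.sum_eq_zero fun i hi => ?_
                  rw [if_neg (hoff i (Finset.mem_union_right _ (Finset.mem_inter.1 hi).2))]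
                rw [hz', zero_add] at hN'
                have hle := pool_le hS hC n v ω
                have hApos : A ω ≤ y := hle
                have h9 := h.2
                have h10 : κ * K2 / 2 = 2 * x := by rw [hx]; ring
                rw [h10] at hbad
                refine ⟨?_, ?_⟩
                · rw [one_mul, ← hN']
                  linarith
                · linarith)
            rw [hexp] at this
            refine le_of_eq_of_le (Finset.sum_congr rfl fun ω _ => ?_) this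
            congr
        _ = (S v).card * (p * ε) := by rw [Finset.sum_const, nsmul_eq_mul]
        _ ≤ p * d * ε := by
            have : ((S v).card : ℝ) ≤ d := by exact_mod_cast hd
            have h0 : 0 ≤ p * ε := by positivity
            calc ((S v).card : ℝ) * (p * ε) ≤ d * (p * ε) := mul_le_mul_of_nonneg_right this h0
              _ = _ := by ring
    rw [div_le_iff₀ h2]
    refine hmain.trans ?_
    have h3 := hC.h4
    have h4 : (1 / 16 : ℝ) * (K3 / (2 * Real.exp (2 * K3))) =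
        (K3 / 16) / (2 * Real.exp (2 * K3)) := by
      field_simp
    rw [h4, le_div_iff₀ (by positivity)]
    linarith
  -- the union bound
  have hun : ∀ ω ∈ (Items S n).powerset,
      (if ¬ GC S K1 K3 v (fun u => Q S p κ K1 K3 u ω) then w ω else 0) ≤
      (if K1 < ∑ u ∈ S v, al S p κ K1 K3 v u ω then w ω else 0) +
      (if K3 / 2 < Real.exp (2 * K2) * ∑ u ∈ S v, al S p κ K1 K3 v u ω then w ω else 0) +
      (if N ω < A ω - x then w ω else 0) +
      (if A ω - x ≤ N ω ∧ K3 / 2 < Real.exp (2 * K3) *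
        ∑ u ∈ S v, (if Bad S p κ K1 K2 K3 v u ω then al S p κ K1 K3 v u ω else 0)
        then w ω else 0) := by
    intro ω _
    have hwω := hw0 ω
    have i1 : 0 ≤ (if K1 < ∑ u ∈ S v, al S p κ K1 K3 v u ω then w ω else 0) := by
      split_ifs <;> simp [hwω]
    have i2 : 0 ≤ (if K3 / 2 < Real.exp (2 * K2) * ∑ u ∈ S v, al S p κ K1 K3 v u ω
        then w ω else 0) := by
      split_ifs <;> simp [hwω]
    have i3 : 0 ≤ (if N ω < A ω - x then w ω else 0) := by
      split_ifs <;> simp [hwω]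
    have i4 : 0 ≤ (if A ω - x ≤ N ω ∧ K3 / 2 < Real.exp (2 * K3) *
        ∑ u ∈ S v, (if Bad S p κ K1 K2 K3 v u ω then al S p κ K1 K3 v u ω else 0)
        then w ω else 0) := by
      split_ifs <;> simp [hwω]
    by_cases hG : GC S K1 K3 v (fun u => Q S p κ K1 K3 u ω)
    · rw [if_neg (not_not.2 hG)]
      linarith
    · rw [if_pos hG]
      by_cases c1 : K1 < ∑ u ∈ S v, al S p κ K1 K3 v u ω
      · rw [if_pos c1] at *
        linarith
      by_cases c2 : K3 / 2 < Real.exp (2 * K2) * ∑ u ∈ S v, al S p κ K1 K3 v u ω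
      · rw [if_pos c2] at *
        linarith
      by_cases c3 : N ω < A ω - x
      · rw [if_pos c3] at *
        linarith
      have hload : K3 < ∑ u ∈ S v, Q S p κ K1 K3 u ω := by
        by_contra h
        exact hG ⟨not_lt.1 c1, not_lt.1 h⟩
      have h5 := lt_stopped (S v) (fun u => Q S p κ K1 K3 u ω) (fun u => hQ u ω) K3 hload
      have h6 : ∑ u ∈ S v, (if ∑ c ∈ S v with c < u, Q S p κ K1 K3 c ω ≤ K3 then
          Q S p κ K1 K3 u ω else 0) ≤ Real.exp (2 * K2) * ∑ u ∈ S v, al S p κ K1 K3 v u ω +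
          Real.exp (2 * K3) *
          ∑ u ∈ S v, (if Bad S p κ K1 K2 K3 v u ω then al S p κ K1 K3 v u ω else 0) := by
        rw [Finset.mul_sum, Finset.mul_sum, ← Finset.sum_add_distrib]
        exact Finset.sum_le_sum fun u _ => JQ_le hS hC v u ω
      have h7 := not_lt.1 c2
      have c4 : A ω - x ≤ N ω ∧ K3 / 2 < Real.exp (2 * K3) *
          ∑ u ∈ S v, (if Bad S p κ K1 K2 K3 v u ω then al S p κ K1 K3 v u ω else 0) :=
        ⟨not_lt.1 c3, by linarith⟩
      rw [if_pos c4] at *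
      linarith
  refine (Finset.sum_le_sum hun).trans ?_
  rw [Finset.sum_add_distrib, Finset.sum_add_distrib, Finset.sum_add_distrib]
  linarith

end

end Helper50.Frac
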