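import Pool.Agent.Helper50.Frac.Adapt

/-!
# The vertex/edge activation process on an ordered graph

`S v` is the set of left neighbours of the vertex `v`.  Items are pairs: `(v, v)` stands for the
vertex `v`, and `(c, b)` with `b ∈ S c` for the edge `bc`.
-/

open Finset

namespace Helper50.Frac

/-- edges inside `A`, written as (upper end, lower end) -/
def Edg (S : ℕ → Finset ℕ) (A : Finset ℕ) : Finset (ℕ × ℕ) :=
  (A ×ˢ A).filter fun e => e.2 ∈ S e.1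

/-- required items of `v`: vertices of `S v` and edges inside `S v` -/
def Req (S : ℕ → Finset ℕ) (v : ℕ) : Finset (ℕ × ℕ) :=
  (S v).image (fun x => (x, x)) ∪ Edg S (S v)

/-- the two truncation conditions, in terms of the values `R u`, `u ∈ S v` -/
def GC (S : ℕ → Finset ℕ) (K1 K3 : ℝ) (v : ℕ) (R : ℕ → ℝ) : Prop :=
  ∑ u ∈ S v, R u * ∏ x ∈ S u ∩ S v, (1 - R x) ≤ K1 ∧ ∑ u ∈ S v, R u ≤ K3

open Classical in
/-- the probability of `v`, given the earlier probabilities `R` -/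
noncomputable def QF (S : ℕ → Finset ℕ) (p κ K1 K3 : ℝ) (v : ℕ) (R : ℕ → ℝ)
    (ω : Finset (ℕ × ℕ)) : ℝ :=
  if GC S K1 K3 v R then
    p * (∏ u ∈ S v, if (u, u) ∈ ω then 0 else (1 - R u)⁻¹) *
      ∏ e ∈ Edg S (S v), if e ∈ ω then 0 else (1 - κ * R e.2 * R e.1)⁻¹
  else 0

/-- the probability that the vertex `v` is put into the independent set -/
noncomputable def Q (S : ℕ → Finset ℕ) (p κ K1 K3 : ℝ) (v : ℕ) (ω : Finset (ℕ × ℕ)) : ℝ :=
  QF S p κ K1 K3 v (fun u => if _h : u < v then Q S p κ K1 K3 u ω else 0) ω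
termination_by v

/-- item probabilities -/
noncomputable def qq (S : ℕ → Finset ℕ) (p κ K1 K3 : ℝ) (i : ℕ × ℕ) (ω : Finset (ℕ × ℕ)) : ℝ :=
  if i.2 < i.1 then κ * Q S p κ K1 K3 i.2 ω * Q S p κ K1 K3 i.1 ω else Q S p κ K1 K3 i.1 ω

theorem one_sub_inv_le {x : ℝ} (h0 : 0 ≤ x) (h1 : x ≤ 1 / 2) : (1 - x)⁻¹ ≤ Real.exp (2 * x) := by
  have h2 : 0 < 1 - x := by linarith
  have h3 := Real.add_one_le_exp (2 * x)
  refine le_trans ?_ h3
  rw [inv_le_iff_one_le_mul₀ h2]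
  nlinarith

theorem exp_le_one_sub {x : ℝ} (h0 : 0 ≤ x) (h1 : x ≤ 1 / 2) : Real.exp (-(2 * x)) ≤ 1 - x := by
  have h2 : 0 < 1 - x := by linarith
  rw [Real.exp_neg]
  exact inv_le_of_inv_le₀ h2 (one_sub_inv_le h0 h1)

theorem prod_inv_le {α : Type*} (s : Finset α) (f : α → ℝ) (P : α → Prop) [DecidablePred P]
    (h0 : ∀ i ∈ s, 0 ≤ f i) (h1 : ∀ i ∈ s, f i ≤ 1 / 2) :
    ∏ i ∈ s, (if P i then 0 else (1 - f i)⁻¹) ≤ Real.exp (2 * ∑ i ∈ s, f i) := by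
  rw [Finset.mul_sum, Real.exp_sum]
  refine Finset.prod_le_prod (fun i hi => ?_) fun i hi => ?_
  · split_ifs
    · exact le_rfl
    · have := h1 i hi
      exact inv_nonneg.2 (by linarith)
  · split_ifs
    · exact (Real.exp_pos _).le
    · exact one_sub_inv_le (h0 i hi) (h1 i hi)

theorem prod_inv_nonneg {α : Type*} (s : Finset α) (f : α → ℝ) (P : α → Prop) [DecidablePred P]
    (h1 : ∀ i ∈ s, f i ≤ 1 / 2) :
    0 ≤ ∏ i ∈ s, (if P i then 0 else (1 - f i)⁻¹) := by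
  refine Finset.prod_nonneg fun i hi => ?_
  split_ifs
  · exact le_rfl
  · have := h1 i hi
    exact inv_nonneg.2 (by linarith)

section

variable {S : ℕ → Finset ℕ} {p κ K1 K3 : ℝ}

theorem mem_Edg {A : Finset ℕ} {e : ℕ × ℕ} : e ∈ Edg S A ↔ e.1 ∈ A ∧ e.2 ∈ A ∧ e.2 ∈ S e.1 := by
  simp [Edg, and_assoc]

theorem QF_congr {v : ℕ} {R R' : ℕ → ℝ} {ω ω' : Finset (ℕ × ℕ)} (hR : ∀ u ∈ S v, R u = R' u)
    (h1 : ∀ u ∈ S v, ((u, u) ∈ ω ↔ (u, u) ∈ ω')) (h2 : ∀ e ∈ Edg S (S v), (e ∈ ω ↔ e ∈ ω')) :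
    QF S p κ K1 K3 v R ω = QF S p κ K1 K3 v R' ω' := by
  have e1 : ∑ u ∈ S v, R u * ∏ x ∈ S u ∩ S v, (1 - R x) =
      ∑ u ∈ S v, R' u * ∏ x ∈ S u ∩ S v, (1 - R' x) := by
    refine Finset.sum_congr rfl fun u hu => ?_
    rw [hR u hu]
    congr 1
    refine Finset.prod_congr rfl fun x hx => ?_
    rw [hR x (Finset.mem_inter.1 hx).2]
  have e2 : ∑ u ∈ S v, R u = ∑ u ∈ S v, R' u := Finset.sum_congr rfl hR
  have e3 : (∏ u ∈ S v, if (u, u) ∈ ω then 0 else (1 - R u)⁻¹) =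
      ∏ u ∈ S v, if (u, u) ∈ ω' then 0 else (1 - R' u)⁻¹ := by
    refine Finset.prod_congr rfl fun u hu => ?_
    simp only [hR u hu, h1 u hu]
  have e4 : (∏ e ∈ Edg S (S v), if e ∈ ω then 0 else (1 - κ * R e.2 * R e.1)⁻¹) =
      ∏ e ∈ Edg S (S v), if e ∈ ω' then 0 else (1 - κ * R' e.2 * R' e.1)⁻¹ := by
    refine Finset.prod_congr rfl fun e he => ?_
    have := mem_Edg.1 he
    simp only [hR e.1 this.1, hR e.2 this.2.1, h2 e he]
  unfold QF GC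
  rw [e1, e2, e3, e4]

variable (hS : ∀ v, ∀ u ∈ S v, u < v)

include hS

theorem Q_eq (v : ℕ) (ω : Finset (ℕ × ℕ)) :
    Q S p κ K1 K3 v ω = QF S p κ K1 K3 v (fun u => Q S p κ K1 K3 u ω) ω := by
  rw [Q]
  refine QF_congr (fun u hu => ?_) (fun _ _ => Iff.rfl) fun _ _ => Iff.rfl
  simp [hS v u hu]

theorem Q_loc (v : ℕ) (a : ℕ × ℕ) (ω : Finset (ℕ × ℕ)) (h : v ≤ a.1) :
    Q S p κ K1 K3 v (insert a ω) = Q S p κ K1 K3 v ω := by
  induction v using Nat.strong_induction_on with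
  | _ v ih =>
    rw [Q_eq hS, Q_eq hS]
    refine QF_congr (fun u hu => ih u (hS v u hu) ((hS v u hu).le.trans h)) (fun u hu => ?_)
      fun e he => ?_
    · have : (u, u) ≠ a := by
        rintro rfl
        have := hS v u hu
        simp only at h
        omega
      simp [this]
    · have : e ≠ a := by
        rintro rfl
        have := hS v _ (mem_Edg.1 he).1
        omega
      simp [this]

theorem qq_loc : Loc Prod.fst (qq S p κ K1 K3) := by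
  intro i a ω h
  unfold qq
  split_ifs with h1
  · rw [Q_loc hS i.2 a ω (h1.le.trans h), Q_loc hS i.1 a ω h]
  · rw [Q_loc hS i.1 a ω h]

omit hS in
theorem qq_diag (x : ℕ) (ω : Finset (ℕ × ℕ)) : qq S p κ K1 K3 (x, x) ω = Q S p κ K1 K3 x ω := by
  simp [qq]

theorem qq_edge {c b : ℕ} (h : b ∈ S c) (ω : Finset (ℕ × ℕ)) :
    qq S p κ K1 K3 (c, b) ω = κ * Q S p κ K1 K3 b ω * Q S p κ K1 K3 c ω := by
  simp [qq, hS c b h]

theorem prod_Req (v : ℕ) (f : ℕ × ℕ → ℝ) :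
    ∏ i ∈ Req S v, f i = (∏ x ∈ S v, f (x, x)) * ∏ e ∈ Edg S (S v), f e := by
  unfold Req
  rw [Finset.prod_union, Finset.prod_image]
  · intro x _ y _ h
    simpa using h
  · rw [Finset.disjoint_left]
    intro e he he'
    obtain ⟨x, _, rfl⟩ := Finset.mem_image.1 he
    have := hS _ _ (mem_Edg.1 he').2.2
    simp at this

variable (hp : 0 ≤ p) (hκ : 0 ≤ κ) (hK3 : 0 ≤ K3)
  (hM : p * Real.exp (2 * K3 + 2 * κ * K3 ^ 2) ≤ 1 / 2)
  (hκM : κ * (p * Real.exp (2 * K3 + 2 * κ * K3 ^ 2)) ^ 2 ≤ 1 / 2)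

include hp hκ hK3 hM hκM

theorem Q_bound (v : ℕ) (ω : Finset (ℕ × ℕ)) :
    0 ≤ Q S p κ K1 K3 v ω ∧ Q S p κ K1 K3 v ω ≤ p * Real.exp (2 * K3 + 2 * κ * K3 ^ 2) := by
  induction v using Nat.strong_induction_on with
  | _ v ih =>
    set M := p * Real.exp (2 * K3 + 2 * κ * K3 ^ 2) with hMdef
    have hM0 : 0 ≤ M := by positivity
    rw [Q_eq hS]
    unfold QF
    have i1 : ∀ u ∈ S v, 0 ≤ Q S p κ K1 K3 u ω := fun u hu => (ih u (hS v u hu)).1
    have i2 : ∀ u ∈ S v, Q S p κ K1 K3 u ω ≤ M := fun u hu => (ih u (hS v u hu)).2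
    have j2 : ∀ u ∈ S v, Q S p κ K1 K3 u ω ≤ 1 / 2 := fun u hu => (i2 u hu).trans hM
    have j3 : ∀ e ∈ Edg S (S v), κ * Q S p κ K1 K3 e.2 ω * Q S p κ K1 K3 e.1 ω ≤ 1 / 2 := by
      intro e he
      have he' := mem_Edg.1 he
      calc κ * Q S p κ K1 K3 e.2 ω * Q S p κ K1 K3 e.1 ω
          ≤ κ * M * M := by
            gcongr
            · exact i1 _ he'.1
            · exact i2 _ he'.2.1
            · exact i2 _ he'.1
        _ = κ * M ^ 2 := by ring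
        _ ≤ 1 / 2 := hκM
    have j4 : ∀ e ∈ Edg S (S v), 0 ≤ κ * Q S p κ K1 K3 e.2 ω * Q S p κ K1 K3 e.1 ω := by
      intro e he
      have he' := mem_Edg.1 he
      exact mul_nonneg (mul_nonneg hκ (i1 _ he'.2.1)) (i1 _ he'.1)
    split_ifs with hG
    · have a1 := prod_inv_nonneg (S v) (fun u => Q S p κ K1 K3 u ω) (fun u => (u, u) ∈ ω) j2
      have a2 := prod_inv_nonneg (Edg S (S v))
        (fun e => κ * Q S p κ K1 K3 e.2 ω * Q S p κ K1 K3 e.1 ω) (fun e => e ∈ ω) j3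
      have b1 := prod_inv_le (S v) (fun u => Q S p κ K1 K3 u ω) (fun u => (u, u) ∈ ω) i1 j2
      have b2 := prod_inv_le (Edg S (S v))
        (fun e => κ * Q S p κ K1 K3 e.2 ω * Q S p κ K1 K3 e.1 ω) (fun e => e ∈ ω) j4 j3
      have c1 : ∑ u ∈ S v, Q S p κ K1 K3 u ω ≤ K3 := hG.2
      have c0 : 0 ≤ ∑ u ∈ S v, Q S p κ K1 K3 u ω := Finset.sum_nonneg i1
      have c2 : ∑ e ∈ Edg S (S v), κ * Q S p κ K1 K3 e.2 ω * Q S p κ K1 K3 e.1 ω
          ≤ κ * K3 ^ 2 := by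
        calc ∑ e ∈ Edg S (S v), κ * Q S p κ K1 K3 e.2 ω * Q S p κ K1 K3 e.1 ω
            ≤ ∑ e ∈ S v ×ˢ S v, κ * Q S p κ K1 K3 e.2 ω * Q S p κ K1 K3 e.1 ω := by
              refine Finset.sum_le_sum_of_subset_of_nonneg (Finset.filter_subset _ _) ?_
              intro e he _
              have he' := Finset.mem_product.1 he
              exact mul_nonneg (mul_nonneg hκ (i1 _ he'.2)) (i1 _ he'.1)
          _ = κ * (∑ u ∈ S v, Q S p κ K1 K3 u ω) ^ 2 := by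
              rw [Finset.sum_product, sq, Finset.sum_mul_sum, Finset.mul_sum]
              refine Finset.sum_congr rfl fun x _ => ?_
              rw [Finset.mul_sum]
              refine Finset.sum_congr rfl fun y _ => ?_
              simp only
              ring
          _ ≤ κ * K3 ^ 2 := by gcongr
      constructor
      · exact mul_nonneg (mul_nonneg hp a1) a2
      · rw [hMdef, mul_assoc]
        refine mul_le_mul_of_nonneg_left ?_ hp
        rw [Real.exp_add]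
        refine mul_le_mul (b1.trans ?_) (b2.trans ?_) a2 (Real.exp_pos _).le
        · exact Real.exp_le_exp.2 (by linarith)
        · exact Real.exp_le_exp.2 (by linarith)
    · exact ⟨le_rfl, hM0⟩

theorem Q_nonneg (v : ℕ) (ω : Finset (ℕ × ℕ)) : 0 ≤ Q S p κ K1 K3 v ω :=
  (Q_bound hS hp hκ hK3 hM hκM v ω).1

theorem Q_le_half (v : ℕ) (ω : Finset (ℕ × ℕ)) : Q S p κ K1 K3 v ω ≤ 1 / 2 :=
  (Q_bound hS hp hκ hK3 hM hκM v ω).2.trans hM

theorem qq_nonneg (i : ℕ × ℕ) (ω : Finset (ℕ × ℕ)) : 0 ≤ qq S p κ K1 K3 i ω := by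
  unfold qq
  split_ifs
  · exact mul_nonneg (mul_nonneg hκ (Q_nonneg hS hp hκ hK3 hM hκM _ ω))
      (Q_nonneg hS hp hκ hK3 hM hκM _ ω)
  · exact Q_nonneg hS hp hκ hK3 hM hκM _ ω

theorem qq_le_half (i : ℕ × ℕ) (ω : Finset (ℕ × ℕ)) : qq S p κ K1 K3 i ω ≤ 1 / 2 := by
  unfold qq
  split_ifs
  · calc κ * Q S p κ K1 K3 i.2 ω * Q S p κ K1 K3 i.1 ω
        ≤ κ * (p * Real.exp (2 * K3 + 2 * κ * K3 ^ 2)) *
          (p * Real.exp (2 * K3 + 2 * κ * K3 ^ 2)) := by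
          gcongr
          · exact Q_nonneg hS hp hκ hK3 hM hκM _ ω
          · exact (Q_bound hS hp hκ hK3 hM hκM _ ω).2
          · exact (Q_bound hS hp hκ hK3 hM hκM _ ω).2
      _ = κ * (p * Real.exp (2 * K3 + 2 * κ * K3 ^ 2)) ^ 2 := by ring
      _ ≤ 1 / 2 := hκM
  · exact Q_le_half hS hp hκ hK3 hM hκM _ ω

end

end Helper50.Frac
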